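import Mathlib

/-!
Riemannian metrics on a finite dimensional real vector space, sectional curvature, and compact
quotients (MP_e7e442_gt, almost flat manifolds): the definitions used in the final statement.
-/

open scoped ContDiff

namespace H610AF

variable {E : Type} [NormedAddCommGroup E] [NormedSpace ℝ E]

/-- A smooth Riemannian metric on the vector space `E`: `form y u v` is the scalar product of the
tangent vectors `u`, `v` at the point `y`. -/
structure RMetric (E : Type) [NormedAddCommGroup E] [NormedSpace ℝ E] where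
  form : E → E →ₗ[ℝ] E →ₗ[ℝ] ℝ
  smooth : ∀ u v, ContDiff ℝ ∞ (fun y => form y u v)
  symm : ∀ y u v, form y u v = form y v u
  pos : ∀ y u, u ≠ 0 → 0 < form y u u

/-- `C y u v` is the covariant derivative `∇_u v` at `y` of the constant vector fields `u`, `v` for
the Levi-Civita connection of `g`; it is characterised by the Koszul formula
`2 g(∇_u v, w) = ∂_u g(v, w) + ∂_v g(u, w) - ∂_w g(u, v)`. -/
def IsChristoffel (g : RMetric E) (C : E → E → E → E) : Prop :=
  (∀ u v, ContDiff ℝ ∞ (fun y => C y u v)) ∧
  ∀ y u v w : E, 2 * g.form y (C y u v) w =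
    fderiv ℝ (fun z => g.form z v w) y u + fderiv ℝ (fun z => g.form z u w) y v
      - fderiv ℝ (fun z => g.form z u v) y w

/-- The curvature tensor `R(u, v) w = ∇_u ∇_v w - ∇_v ∇_u w` of the connection with Christoffel
symbols `C`, for constant vector fields `u`, `v`, `w`. -/
noncomputable def riem (C : E → E → E → E) (y u v w : E) : E :=
  fderiv ℝ (fun z => C z v w) y u - fderiv ℝ (fun z => C z u w) y v + C y u (C y v w)
    - C y v (C y u w)

/-- The sectional curvature of the plane spanned by `u`, `v` at the point `y`. -/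
noncomputable def sec (g : RMetric E) (C : E → E → E → E) (y u v : E) : ℝ :=
  g.form y (riem C y u v v) u / (g.form y u u * g.form y v v - g.form y u v ^ 2)

/-- All sectional curvatures of `g` lie between `-1` and `1`. -/
def CurvBound (g : RMetric E) : Prop :=
  ∃ C, IsChristoffel g C ∧
    ∀ y u v, LinearIndependent ℝ ![u, v] → -1 ≤ sec g C y u v ∧ sec g C y u v ≤ 1

/-- `γ` is a smooth isometry of `(E, g)`. -/
def IsIsometry (g : RMetric E) (γ : Equiv.Perm E) : Prop :=
  ContDiff ℝ ∞ γ ∧ ContDiff ℝ ∞ γ.symm ∧
    ∀ y u v, g.form (γ y) (fderiv ℝ γ y u) (fderiv ℝ γ y v) = g.form y u v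

/-- The length of the path `c`, `0 ≤ t ≤ 1`, for the metric `g`. -/
noncomputable def pathLength (g : RMetric E) (c : ℝ → E) : ℝ :=
  ∫ t in (0:ℝ)..1, Real.sqrt (g.form (c t) (deriv c t) (deriv c t))

/-- `Γ` is a group of isometries of `(E, g)` which acts freely and properly discontinuously with a
compact quotient, so that `E / Γ` is a compact Riemannian manifold with universal covering `E` and
fundamental group `Γ`. -/
structure IsCompactForm (g : RMetric E) (Γ : Subgroup (Equiv.Perm E)) : Prop where
  isom : ∀ γ ∈ Γ, IsIsometry g γ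
  free : ∀ γ ∈ Γ, γ ≠ 1 → ∀ x, γ x ≠ x
  proper : ∀ K : Set E, IsCompact K → {γ : Equiv.Perm E | γ ∈ Γ ∧ (γ '' K ∩ K).Nonempty}.Finite
  cocompact : ∃ K : Set E, IsCompact K ∧ ∀ x, ∃ γ ∈ Γ, γ x ∈ K

/-- Any two points of the quotient `E / Γ` are joined by a smooth path of length less than `D`:
every `x` is joined to some translate `γ y` of `y` by such a path in `E`. -/
def DiamLT (g : RMetric E) (Γ : Subgroup (Equiv.Perm E)) (D : ℝ) : Prop :=
  ∀ x y : E, ∃ γ ∈ Γ, ∃ c : ℝ → E, ContDiff ℝ ∞ c ∧ c 0 = x ∧ c 1 = γ y ∧ pathLength g c < D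

/-- `G` has a nilpotent subgroup of finite index. The fundamental group of every infranilmanifold
has this property. -/
def VirtuallyNilpotent (G : Type) [Group G] : Prop :=
  ∃ H : Subgroup G, H.FiniteIndex ∧ Group.IsNilpotent H

end H610AF
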