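import Mathlib
import Pool.Agent.H610R2.AF.Stmt

/-! Blueprint: definitions of the example and the task statements. -/

open scoped ContDiff

namespace H610AF

/-! ### The metric -/

section Metric
variable {ι : Type} [Fintype ι] [DecidableEq ι]

/-- the bilinear form `∑ exp (2 w_i z) u_i v_i + u_z v_z` at a point with last coordinate `z` -/
noncomputable def bil (w : ι → ℝ) (y : (ι → ℝ) × ℝ) :
    ((ι → ℝ) × ℝ) →ₗ[ℝ] ((ι → ℝ) × ℝ) →ₗ[ℝ] ℝ :=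
  LinearMap.mk₂ ℝ
    (fun u v => ∑ i, Real.exp (2 * w i * y.2) * (u.1 i * v.1 i) + u.2 * v.2)
    (by
      intro a b c
      have : ∑ i, Real.exp (2 * w i * y.2) * ((a + b).1 i * c.1 i) =
          ∑ i, Real.exp (2 * w i * y.2) * (a.1 i * c.1 i) +
            ∑ i, Real.exp (2 * w i * y.2) * (b.1 i * c.1 i) := by
        rw [← Finset.sum_add_distrib]
        refine Finset.sum_congr rfl fun i _ => ?_
        simp only [Prod.fst_add, Pi.add_apply]; ring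
      rw [this, Prod.snd_add]; ring)
    (by
      intro r a c
      have : ∑ i, Real.exp (2 * w i * y.2) * ((r • a).1 i * c.1 i) =
          r * ∑ i, Real.exp (2 * w i * y.2) * (a.1 i * c.1 i) := by
        rw [Finset.mul_sum]
        refine Finset.sum_congr rfl fun i _ => ?_
        simp only [Prod.smul_fst, Pi.smul_apply, smul_eq_mul]; ring
      rw [this, Prod.smul_snd, smul_eq_mul, smul_eq_mul]; ring)
    (by
      intro a b c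
      have : ∑ i, Real.exp (2 * w i * y.2) * (a.1 i * (b + c).1 i) =
          ∑ i, Real.exp (2 * w i * y.2) * (a.1 i * b.1 i) +
            ∑ i, Real.exp (2 * w i * y.2) * (a.1 i * c.1 i) := by
        rw [← Finset.sum_add_distrib]
        refine Finset.sum_congr rfl fun i _ => ?_
        simp only [Prod.fst_add, Pi.add_apply]; ring
      rw [this, Prod.snd_add]; ring)
    (by
      intro r a c
      have : ∑ i, Real.exp (2 * w i * y.2) * (a.1 i * (r • c).1 i) =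
          r * ∑ i, Real.exp (2 * w i * y.2) * (a.1 i * c.1 i) := by
        rw [Finset.mul_sum]
        refine Finset.sum_congr rfl fun i _ => ?_
        simp only [Prod.smul_fst, Pi.smul_apply, smul_eq_mul]; ring
      rw [this, Prod.smul_snd, smul_eq_mul, smul_eq_mul]; ring)

/-- Christoffel symbols of this metric -/
noncomputable def chr (w : ι → ℝ) (y u v : (ι → ℝ) × ℝ) : (ι → ℝ) × ℝ :=
  (fun i => w i * (u.2 * v.1 i + v.2 * u.1 i),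
    - ∑ i, w i * (Real.exp (2 * w i * y.2) * (u.1 i * v.1 i)))

end Metric

/-- MET: `bil w` is a Riemannian metric -/
def S_MET : Prop := ∀ (ι : Type) [Fintype ι] [DecidableEq ι] (w : ι → ℝ),
  ∃ g : RMetric ((ι → ℝ) × ℝ), g.form = bil w

/-- CHR: Christoffel symbols -/
def S_CHR : Prop := ∀ (ι : Type) [Fintype ι] [DecidableEq ι] (w : ι → ℝ)
  (g : RMetric ((ι → ℝ) × ℝ)), g.form = bil w → IsChristoffel g (chr w)

/-- RIE: the numerator of the sectional curvature -/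
def S_RIE : Prop := ∀ (ι : Type) [Fintype ι] [DecidableEq ι] (w : ι → ℝ)
  (y u v : (ι → ℝ) × ℝ),
  bil w y (riem (chr w) y u v v) u =
    - ∑ i, w i ^ 2 * (Real.exp (2 * w i * y.2) * (u.2 * v.1 i - v.2 * u.1 i) ^ 2)
    - (1 / 2) * ∑ i, ∑ j, w i * w j * (Real.exp (2 * w i * y.2) * Real.exp (2 * w j * y.2) *
        (u.1 i * v.1 j - u.1 j * v.1 i) ^ 2)

/-- GRAM: the denominator of the sectional curvature -/
def S_GRAM : Prop := ∀ (ι : Type) [Fintype ι] [DecidableEq ι] (w : ι → ℝ)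
  (y u v : (ι → ℝ) × ℝ),
  bil w y u u * bil w y v v - bil w y u v ^ 2 =
    ∑ i, (Real.exp (2 * w i * y.2) * (u.2 * v.1 i - v.2 * u.1 i) ^ 2)
    + (1 / 2) * ∑ i, ∑ j, (Real.exp (2 * w i * y.2) * Real.exp (2 * w j * y.2) *
        (u.1 i * v.1 j - u.1 j * v.1 i) ^ 2)

/-- CUR: the curvature bound -/
def S_CUR : Prop := S_CHR → S_RIE → S_GRAM →
  ∀ (ι : Type) [Fintype ι] [DecidableEq ι] (w : ι → ℝ), (∀ i, |w i| ≤ 1) →
  ∀ g : RMetric ((ι → ℝ) × ℝ), g.form = bil w → CurvBound g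

/-! ### The group -/

section Group
variable {ι : Type} [Fintype ι] [DecidableEq ι]

/-- `(x, z) ↦ (L^m x + lam, z + m a)` -/
noncomputable def tr (L : (ι → ℝ) ≃ₗ[ℝ] (ι → ℝ)) (a : ℝ) (m : ℤ) (lam : ι → ℝ) :
    (ι → ℝ) × ℝ → (ι → ℝ) × ℝ :=
  fun p => ((L ^ m) p.1 + lam, p.2 + m * a)

/-- the set of all these maps, `m ∈ ℤ`, `lam ∈ Λ` -/
def grpSet (L : (ι → ℝ) ≃ₗ[ℝ] (ι → ℝ)) (a : ℝ) (Λ : AddSubgroup (ι → ℝ)) :
    Set (Equiv.Perm ((ι → ℝ) × ℝ)) :=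
  {γ | ∃ (m : ℤ) (lam : ι → ℝ), lam ∈ Λ ∧ ∀ p, γ p = tr L a m lam p}

/-- hypotheses on `L`, `a`, `Λ` and the weights; `δ` bounds the size of a fundamental domain -/
structure Data (w : ι → ℝ) (L : (ι → ℝ) ≃ₗ[ℝ] (ι → ℝ)) (a δ : ℝ) (Λ : AddSubgroup (ι → ℝ)) :
    Prop where
  w1 : ∀ i, |w i| ≤ 1
  a0 : 0 < a
  inv : ∀ x, L x ∈ Λ ↔ x ∈ Λ
  fin : ∀ R : ℝ, {x : ι → ℝ | x ∈ Λ ∧ ‖x‖ ≤ R}.Finite
  coc : ∀ x : ι → ℝ, ∃ lam ∈ Λ, ‖x + lam‖ ≤ δ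
  iso : ∀ (z : ℝ) (u v : ι → ℝ), ∑ i, Real.exp (2 * w i * (z + a)) * (L u i * L v i) =
    ∑ i, Real.exp (2 * w i * z) * (u i * v i)

end Group

/-- GRP: these maps form a group -/
def S_GRP : Prop := ∀ (ι : Type) [Fintype ι] [DecidableEq ι] (w : ι → ℝ)
  (L : (ι → ℝ) ≃ₗ[ℝ] (ι → ℝ)) (a δ : ℝ) (Λ : AddSubgroup (ι → ℝ)), Data w L a δ Λ →
  ∃ Γ : Subgroup (Equiv.Perm ((ι → ℝ) × ℝ)), (Γ : Set (Equiv.Perm ((ι → ℝ) × ℝ))) = grpSet L a Λ ∧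
    ∀ (m : ℤ) (lam : ι → ℝ), lam ∈ Λ → ∃ γ ∈ Γ, ∀ p, γ p = tr L a m lam p

/-- ISOM: isometries -/
def S_ISOM : Prop := ∀ (ι : Type) [Fintype ι] [DecidableEq ι] (w : ι → ℝ)
  (L : (ι → ℝ) ≃ₗ[ℝ] (ι → ℝ)) (a δ : ℝ) (Λ : AddSubgroup (ι → ℝ)), Data w L a δ Λ →
  ∀ g : RMetric ((ι → ℝ) × ℝ), g.form = bil w →
  (∀ (m : ℤ) (y u v : (ι → ℝ) × ℝ) (lam : ι → ℝ),
    bil w (tr L a m lam y) ((L ^ m) u.1, u.2) ((L ^ m) v.1, v.2) = bil w y u v) ∧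
  ∀ γ ∈ grpSet L a Λ, IsIsometry g γ

/-- FRE: the action is free -/
def S_FRE : Prop := ∀ (ι : Type) [Fintype ι] [DecidableEq ι] (w : ι → ℝ)
  (L : (ι → ℝ) ≃ₗ[ℝ] (ι → ℝ)) (a δ : ℝ) (Λ : AddSubgroup (ι → ℝ)), Data w L a δ Λ →
  ∀ γ ∈ grpSet L a Λ, γ ≠ 1 → ∀ x, γ x ≠ x

/-- PRO: the action is properly discontinuous -/
def S_PRO : Prop := ∀ (ι : Type) [Fintype ι] [DecidableEq ι] (w : ι → ℝ)
  (L : (ι → ℝ) ≃ₗ[ℝ] (ι → ℝ)) (a δ : ℝ) (Λ : AddSubgroup (ι → ℝ)), Data w L a δ Λ →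
  ∀ K : Set ((ι → ℝ) × ℝ), IsCompact K →
    {γ : Equiv.Perm ((ι → ℝ) × ℝ) | γ ∈ grpSet L a Λ ∧ (γ '' K ∩ K).Nonempty}.Finite

/-- COC: the quotient is compact -/
def S_COC : Prop := ∀ (ι : Type) [Fintype ι] [DecidableEq ι] (w : ι → ℝ)
  (L : (ι → ℝ) ≃ₗ[ℝ] (ι → ℝ)) (a δ : ℝ) (Λ : AddSubgroup (ι → ℝ)), Data w L a δ Λ →
  ∃ K : Set ((ι → ℝ) × ℝ), IsCompact K ∧ ∀ x, ∃ (m : ℤ) (lam : ι → ℝ), lam ∈ Λ ∧
    tr L a m lam x ∈ K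

/-- SEG: length of a segment which starts at a level between `0` and `a` -/
def S_SEG : Prop := ∀ (ι : Type) [Fintype ι] [DecidableEq ι] (w : ι → ℝ) (a δ : ℝ),
  (∀ i, |w i| ≤ 1) → 0 < a → 0 ≤ δ →
  ∀ x h : (ι → ℝ) × ℝ, 0 ≤ x.2 → x.2 ≤ a → |h.2| ≤ a / 2 → ‖h.1‖ ≤ δ →
  ∫ t in (0:ℝ)..1, Real.sqrt (bil w (x + t • h) h h) ≤
    a / 2 + Real.exp (2 * a) * (Fintype.card ι) * δ

/-- DIA: the diameter of the quotient -/
def S_DIA : Prop := S_SEG → S_ISOM → S_GRP →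
  ∀ (ι : Type) [Fintype ι] [DecidableEq ι] (w : ι → ℝ)
  (L : (ι → ℝ) ≃ₗ[ℝ] (ι → ℝ)) (a δ : ℝ) (Λ : AddSubgroup (ι → ℝ)), Data w L a δ Λ →
  ∀ g : RMetric ((ι → ℝ) × ℝ), g.form = bil w →
  ∀ Γ : Subgroup (Equiv.Perm ((ι → ℝ) × ℝ)),
  (Γ : Set (Equiv.Perm ((ι → ℝ) × ℝ))) = grpSet L a Λ →
  ∀ D : ℝ, a / 2 + Real.exp (2 * a) * (Fintype.card ι) * δ < D → DiamLT g Γ D

/-- NVN: the group is not virtually nilpotent -/
def S_NVN : Prop := ∀ (ι : Type) [Fintype ι] [DecidableEq ι] (w : ι → ℝ)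
  (L : (ι → ℝ) ≃ₗ[ℝ] (ι → ℝ)) (a δ : ℝ) (Λ : AddSubgroup (ι → ℝ)), Data w L a δ Λ →
  ∀ Γ : Subgroup (Equiv.Perm ((ι → ℝ) × ℝ)),
  (Γ : Set (Equiv.Perm ((ι → ℝ) × ℝ))) = grpSet L a Λ →
  (∀ n : ℕ, 0 < n → ∃ lam ∈ Λ, ∀ c : ℕ,
    ((fun x : ι → ℝ => x - (L ^ n) x)^[c]) lam ≠ 0) →
  ¬ VirtuallyNilpotent Γ

/-! ### The lattice -/

/-- index set: `K + 1` expanding, `K + 1` contracting and `r` neutral directions -/
abbrev Idx (K r : ℕ) : Type := (Fin (K + 1) ⊕ Fin (K + 1)) ⊕ Fin r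

/-- the weights `-1, 1, 0` -/
def wt (K r : ℕ) : Idx K r → ℝ := Sum.elim (Sum.elim (fun _ => -1) (fun _ => 1)) (fun _ => 0)

/-- `a = log φ / (K + 1)` -/
noncomputable def aa (K : ℕ) : ℝ := Real.log Real.goldenRatio / (K + 1)

/-- sign `-1` at `0` -/
def sg (K : ℕ) (j : Fin (K + 1)) : ℝ := if j = 0 then -1 else 1

/-- the monodromy as a function -/
noncomputable def Lf (K r : ℕ) (x : Idx K r → ℝ) : Idx K r → ℝ :=
  Sum.elim (Sum.elim (fun j => Real.exp (aa K) * x (Sum.inl (Sum.inl (j - 1))))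
    (fun j => sg K j * Real.exp (-(aa K)) * x (Sum.inl (Sum.inr (j - 1)))))
    (fun i => x (Sum.inr i))

/-- the embedding of the integer lattice, scaled by `s` -/
noncomputable def emb (K r : ℕ) (s : ℝ) (v : (Fin (K + 1) → ℤ × ℤ) × (Fin r → ℤ)) :
    Idx K r → ℝ :=
  Sum.elim (Sum.elim
    (fun j => s * (Real.exp (aa K * (j : ℕ)) * (Real.goldenRatio * (v.1 j).1 + (v.1 j).2)))
    (fun j => s * (Real.exp (-(aa K * (j : ℕ))) * (Real.goldenConj * (v.1 j).1 + (v.1 j).2))))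
    (fun i => s * (v.2 i : ℝ))

/-- the monodromy of the integer lattice: golden matrix and cyclic shift -/
def Af (K r : ℕ) (v : (Fin (K + 1) → ℤ × ℤ) × (Fin r → ℤ)) :
    (Fin (K + 1) → ℤ × ℤ) × (Fin r → ℤ) :=
  (fun j => if j = 0 then ((v.1 (j - 1)).1 + (v.1 (j - 1)).2, (v.1 (j - 1)).1) else v.1 (j - 1), v.2)

/-- LIN: `Lf` is a linear automorphism -/
def S_LIN : Prop := ∀ K r : ℕ, ∃ L : (Idx K r → ℝ) ≃ₗ[ℝ] (Idx K r → ℝ), ∀ x, L x = Lf K r x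

/-- COM: `Lf` and `Af` are compatible -/
def S_COM : Prop := ∀ (K r : ℕ) (s : ℝ) (v : (Fin (K + 1) → ℤ × ℤ) × (Fin r → ℤ)),
  Lf K r (emb K r s v) = emb K r s (Af K r v)

/-- BIJ: `Af` is a bijection -/
def S_BIJ : Prop := ∀ K r : ℕ, Function.Bijective (Af K r)

/-- ISL: `Lf` stretches the metric correctly -/
def S_ISL : Prop := ∀ (K r : ℕ) (z : ℝ) (u v : Idx K r → ℝ),
  ∑ i, Real.exp (2 * wt K r i * (z + aa K)) * (Lf K r u i * Lf K r v i) =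
    ∑ i, Real.exp (2 * wt K r i * z) * (u i * v i)

/-- FIN: the lattice is discrete -/
def S_FIN : Prop := ∀ (K r : ℕ) (s R : ℝ), 0 < s →
  {v : (Fin (K + 1) → ℤ × ℤ) × (Fin r → ℤ) | ‖emb K r s v‖ ≤ R}.Finite

/-- COV: the lattice is cocompact -/
def S_COV : Prop := ∀ (K r : ℕ), ∃ B : ℝ, 0 < B ∧ ∀ s : ℝ, 0 < s → ∀ x : Idx K r → ℝ,
  ∃ v, ‖x + emb K r s v‖ ≤ B * s

/-- POW: powers of `L` on the first coordinates: `L^(q (K+1))` multiplies them by `φ^q` -/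
def S_POW : Prop := ∀ (K r : ℕ) (L : (Idx K r → ℝ) ≃ₗ[ℝ] (Idx K r → ℝ)), (∀ x, L x = Lf K r x) →
  ∀ (q : ℕ) (x : Idx K r → ℝ) (j : Fin (K + 1)),
    ((L ^ ((K + 1) * q)) x) (Sum.inl (Sum.inl j)) =
      Real.goldenRatio ^ q * x (Sum.inl (Sum.inl j))

/-- NON: iterates of `1 - L^n` do not kill the lattice -/
def S_NON : Prop := S_POW → ∀ (K r : ℕ) (L : (Idx K r → ℝ) ≃ₗ[ℝ] (Idx K r → ℝ)),
  (∀ x, L x = Lf K r x) → ∀ s : ℝ, 0 < s → ∀ n : ℕ, 0 < n → ∀ c : ℕ,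
    ((fun x : Idx K r → ℝ => x - (L ^ n) x)^[c]) (emb K r s (fun _ => (0, 1), 0)) ≠ 0

/-- DAT: the data -/
def S_DAT : Prop := S_LIN → S_COM → S_BIJ → S_ISL → S_FIN → S_COV → S_NON → S_POW →
  ∀ K r : ℕ, ∀ η : ℝ, 0 < η → ∃ (L : (Idx K r → ℝ) ≃ₗ[ℝ] (Idx K r → ℝ)) (δ : ℝ)
    (Λ : AddSubgroup (Idx K r → ℝ)), 0 < δ ∧ δ < η ∧ Data (wt K r) L (aa K) δ Λ ∧
    ∀ n : ℕ, 0 < n → ∃ lam ∈ Λ, ∀ c : ℕ, ((fun x : Idx K r → ℝ => x - (L ^ n) x)^[c]) lam ≠ 0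

/-- Main theorem -/
def S_MAIN : Prop := ∀ d : ℕ, 3 ≤ d → ∀ D : ℝ,
  Real.log Real.goldenRatio / (2 * ((d - 1) / 2 : ℕ)) < D →
  ∃ (E : Type) (_ : NormedAddCommGroup E) (_ : NormedSpace ℝ E) (_ : FiniteDimensional ℝ E),
    Module.finrank ℝ E = d ∧ ∃ (g : RMetric E) (Γ : Subgroup (Equiv.Perm E)),
      CurvBound g ∧ IsCompactForm g Γ ∧ DiamLT g Γ D ∧ ¬ VirtuallyNilpotent Γ

/-- ASM: assembly -/
def S_ASM : Prop := S_MET → (S_CHR ∧ S_RIE ∧ S_GRAM) → S_CUR → S_GRP → S_ISOM → S_FRE → S_PRO →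
  S_COC → S_SEG → S_DIA → S_NVN → (S_LIN ∧ S_COM ∧ S_BIJ ∧ S_ISL ∧ S_FIN ∧ S_COV ∧ S_POW) →
  S_NON → S_DAT → S_MAIN

end H610AF
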