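import Mathlib
import Pool.Agent.H610R2.AF.Stmt

namespace H610AF

/-- `Γ` is the fundamental group of an infranilmanifold `N / Λ`: there are a nilpotent group `N`, a
group `C` acting on `N` by automorphisms and a subgroup `Λ` of `N ⋊ C` isomorphic to `Γ` such that
`Λ ∩ N` has finite index in `Λ`. (For an infranilmanifold, `N` is moreover a simply connected Lie
group, `C` is compact, and `Λ` is discrete, torsion-free and cocompact.) -/
def IsInfranilGroup (G : Type) [Group G] : Prop :=
  ∃ (N C : Type) (_ : Group N) (_ : Group C) (φ : C →* MulAut N) (Λ : Subgroup (N ⋊[φ] C)),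
    Group.IsNilpotent N ∧
    ((SemidirectProduct.inl : N →* N ⋊[φ] C).range.subgroupOf Λ).FiniteIndex ∧
    Nonempty (G ≃* Λ)

theorem IsInfranilGroup.virtuallyNilpotent {G : Type} [Group G] (h : IsInfranilGroup G) :
    VirtuallyNilpotent G := by
  obtain ⟨N, C, _, _, φ, Λ, hN, hfin, ⟨e⟩⟩ := h
  set R : Subgroup (N ⋊[φ] C) := (SemidirectProduct.inl : N →* N ⋊[φ] C).range with hR
  have hRn : Group.IsNilpotent R :=
    Group.nilpotent_of_surjective (SemidirectProduct.inl : N →* N ⋊[φ] C).rangeRestrict
      (MonoidHom.rangeRestrict_surjective _)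
  set H : Subgroup Λ := R.subgroupOf Λ with hH
  have hHn : Group.IsNilpotent H := by
    let f : H →* R :=
      { toFun := fun x => ⟨((x : Λ) : N ⋊[φ] C), x.2⟩
        map_one' := rfl
        map_mul' := fun _ _ => rfl }
    have hf : Function.Injective f := by
      intro x y hxy
      apply Subtype.ext
      apply Subtype.ext
      exact congrArg (fun z : R => (z : N ⋊[φ] C)) hxy
    exact Group.nilpotent_of_mulEquiv (MonoidHom.ofInjective hf).symm
  refine ⟨H.comap e.toMonoidHom, ?_, ?_⟩
  · constructor
    have h1 := hfin.index_ne_zero
    rw [Subgroup.index_comap_of_surjective H e.surjective]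
    exact h1
  · let f : H.comap e.toMonoidHom →* H :=
      { toFun := fun x => ⟨e (x : G), x.2⟩
        map_one' := by apply Subtype.ext; simp
        map_mul' := fun x y => by
          apply Subtype.ext
          exact map_mul e (x : G) (y : G) }
    have hf : Function.Injective f := by
      intro x y hxy
      apply Subtype.ext
      apply e.injective
      exact congrArg (fun z : H => (z : Λ)) hxy
    exact Group.nilpotent_of_mulEquiv (MonoidHom.ofInjective hf).symm

end H610AF
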