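import Mathlib
import Pool.Agent.H610R2.AF.Defs

open scoped ContDiff

namespace H610AF

theorem t_ASM : S_ASM := by
  intro hMET hC hCUR hGRP hISOM hFRE hPRO hCOC hSEG hDIA hNVN hL hNON hDAT d hd D hD
  obtain ⟨hCHR, hRIE, hGRAM⟩ := hC
  obtain ⟨hLIN, hCOM, hBIJ, hISL, hFIN, hCOV, hPOW⟩ := hL
  obtain ⟨K, hK⟩ : ∃ K : ℕ, (d - 1) / 2 = K + 1 := ⟨(d - 1) / 2 - 1, by omega⟩
  obtain ⟨r, hr⟩ : ∃ r : ℕ, d = 2 * (K + 1) + r + 1 := ⟨d - 1 - 2 * (K + 1), by omega⟩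
  have ha : aa K / 2 < D := by
    have : aa K / 2 = Real.log Real.goldenRatio / (2 * ((d - 1) / 2 : ℕ)) := by
      rw [hK, aa, div_div]
      push_cast
      ring_nf
    rw [this]; exact hD
  set M : ℝ := Real.exp (2 * aa K) * (Fintype.card (Idx K r)) with hM
  have hM0 : 0 ≤ M := by positivity
  obtain ⟨L, δ, Λ, hδ0, hδ, hdat, hnon⟩ := hDAT hLIN hCOM hBIJ hISL hFIN hCOV hNON hPOW K r
    ((D - aa K / 2) / (M + 1)) (by apply div_pos (by linarith) (by linarith))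
  obtain ⟨g, hg⟩ := hMET (Idx K r) (wt K r)
  obtain ⟨Γ, hΓ, -⟩ := hGRP (Idx K r) (wt K r) L (aa K) δ Λ hdat
  have hmem : ∀ γ, γ ∈ Γ ↔ γ ∈ grpSet L (aa K) Λ := by
    intro γ
    rw [← hΓ]; rfl
  refine ⟨(Idx K r → ℝ) × ℝ, inferInstance, inferInstance, inferInstance, ?_, g, Γ, ?_, ?_, ?_, ?_⟩
  · rw [Module.finrank_prod, Module.finrank_fintype_fun_eq_card, Module.finrank_self, hr]
    simp only [Idx, Fintype.card_sum, Fintype.card_fin]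
    omega
  · exact hCUR hCHR hRIE hGRAM (Idx K r) (wt K r) hdat.w1 g hg
  · obtain ⟨-, hiso⟩ := hISOM (Idx K r) (wt K r) L (aa K) δ Λ hdat g hg
    refine ⟨fun γ hγ => hiso γ ((hmem γ).1 hγ),
      fun γ hγ => hFRE (Idx K r) (wt K r) L (aa K) δ Λ hdat γ ((hmem γ).1 hγ), ?_, ?_⟩
    · intro S hS
      have := hPRO (Idx K r) (wt K r) L (aa K) δ Λ hdat S hS
      convert this using 4
      exact hmem _
    · obtain ⟨S, hS, h⟩ := hCOC (Idx K r) (wt K r) L (aa K) δ Λ hdat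
      refine ⟨S, hS, fun x => ?_⟩
      obtain ⟨m, lam, hlam, hx⟩ := h x
      obtain ⟨Γ', hΓ', h'⟩ := hGRP (Idx K r) (wt K r) L (aa K) δ Λ hdat
      obtain ⟨γ, hγ, hγ'⟩ := h' m lam hlam
      refine ⟨γ, ?_, ?_⟩
      · rw [hmem, ← hΓ']; exact hγ
      · rw [hγ' x]; exact hx
  · refine hDIA hSEG hISOM hGRP (Idx K r) (wt K r) L (aa K) δ Λ hdat g hg Γ hΓ D ?_
    rw [← hM]
    have h1 : M * δ ≤ (M + 1) * δ := by nlinarith
    have h2 : (M + 1) * δ < D - aa K / 2 := by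
      rw [lt_div_iff₀ (by linarith)] at hδ
      linarith
    linarith
  · exact hNVN (Idx K r) (wt K r) L (aa K) δ Λ hdat Γ hΓ hnon

end H610AF
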