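import Pool.Agent.H610R2.AF.Defs

namespace H610AF

theorem t_BIJ : S_BIJ := by
  intro K r
  refine Function.bijective_iff_has_inverse.2 ⟨fun v => (fun j => if j + 1 = 0 then
    ((v.1 (j + 1)).2, (v.1 (j + 1)).1 - (v.1 (j + 1)).2) else v.1 (j + 1), v.2), ?_, ?_⟩
  · intro v
    refine Prod.ext ?_ rfl
    funext j
    simp only [Af]
    by_cases h : j + 1 = 0
    · simp only [if_pos h, add_sub_cancel_right]
      refine Prod.ext rfl ?_
      simp
    · simp only [if_neg h, add_sub_cancel_right]
  · intro v
    refine Prod.ext ?_ rfl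
    funext j
    simp only [Af, sub_add_cancel]
    by_cases h : j = 0
    · simp only [if_pos h]
      refine Prod.ext ?_ rfl
      simp
    · simp only [if_neg h]

end H610AF
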