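import Pool.Agent.H610R2.AF.Defs

/-! Task CHR: the Christoffel symbols of the metric. -/

open scoped ContDiff

namespace H610AF

theorem chr_bil (ι : Type) [Fintype ι] [DecidableEq ι] (w : ι → ℝ) (y u v : (ι → ℝ) × ℝ) :
    bil w y u v = ∑ i, Real.exp (2 * w i * y.2) * (u.1 i * v.1 i) + u.2 * v.2 := rfl

theorem chr_deriv (ι : Type) [Fintype ι] [DecidableEq ι] (w : ι → ℝ)
    (y u v x : (ι → ℝ) × ℝ) :
    fderiv ℝ (fun z : (ι → ℝ) × ℝ => bil w z v x) y u =
      (∑ i, 2 * w i * Real.exp (2 * w i * y.2) * (v.1 i * x.1 i)) * u.2 := by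
  have hF : HasDerivAt
      (fun t : ℝ => ∑ i, Real.exp (2 * w i * t) * (v.1 i * x.1 i) + v.2 * x.2)
      (∑ i, 2 * w i * Real.exp (2 * w i * y.2) * (v.1 i * x.1 i)) y.2 := by
    have h1 : ∀ i ∈ (Finset.univ : Finset ι),
        HasDerivAt (fun t : ℝ => Real.exp (2 * w i * t) * (v.1 i * x.1 i))
          (2 * w i * Real.exp (2 * w i * y.2) * (v.1 i * x.1 i)) y.2 := by
      intro i _
      have h2 : HasDerivAt (fun t : ℝ => 2 * w i * t) (2 * w i) y.2 := by
        simpa using (hasDerivAt_id y.2).const_mul (2 * w i)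
      have h3 := (h2.exp).mul_const (v.1 i * x.1 i)
      have e : 2 * w i * Real.exp (2 * w i * y.2) * (v.1 i * x.1 i) =
          Real.exp (2 * w i * y.2) * (2 * w i) * (v.1 i * x.1 i) := by ring
      rw [e]
      exact h3
    have h4 := HasDerivAt.fun_sum h1
    exact h4.add_const (v.2 * x.2)
  have h5 : HasFDerivAt (fun z : (ι → ℝ) × ℝ => z.2) (ContinuousLinearMap.snd ℝ (ι → ℝ) ℝ) y :=
    hasFDerivAt_snd
  have h6 := hF.comp_hasFDerivAt y h5
  have h7 : HasFDerivAt (fun z : (ι → ℝ) × ℝ => bil w z v x)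
      ((∑ i, 2 * w i * Real.exp (2 * w i * y.2) * (v.1 i * x.1 i)) •
        ContinuousLinearMap.snd ℝ (ι → ℝ) ℝ) y := h6
  rw [h7.fderiv]
  rfl

theorem t_CHR : S_CHR := by
  intro ι _ _ w g hg
  refine ⟨?_, ?_⟩
  · intro u v
    unfold chr
    refine ContDiff.prodMk contDiff_const ?_
    refine ContDiff.neg (ContDiff.sum fun i _ => ?_)
    refine contDiff_const.mul (ContDiff.mul ?_ contDiff_const)
    exact Real.contDiff_exp.comp (contDiff_const.mul contDiff_snd)
  · intro y u v x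
    rw [hg, chr_deriv, chr_deriv, chr_deriv, chr_bil]
    unfold chr
    simp only [Finset.sum_mul, Finset.mul_sum, mul_add, Finset.sum_neg_distrib, neg_mul, mul_neg]
    rw [← sub_eq_add_neg]
    rw [← Finset.sum_add_distrib, ← Finset.sum_sub_distrib, ← Finset.sum_sub_distrib]
    refine Finset.sum_congr rfl fun i _ => ?_
    ring

end H610AF
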