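import Pool.Agent.H610R2.AF.Defs

/-! COC: the quotient is compact. -/

namespace H610AF

theorem t_COC : S_COC := by
  intro ι _ _ w L a δ Λ hD
  refine ⟨Metric.closedBall (0 : ι → ℝ) δ ×ˢ Set.Icc (0 : ℝ) a,
    (isCompact_closedBall _ _).prod isCompact_Icc, ?_⟩
  rintro ⟨x1, z⟩
  have ha := hD.a0
  obtain ⟨lam, hlam, hle⟩ := hD.coc ((L ^ (-⌊z / a⌋)) x1)
  refine ⟨-⌊z / a⌋, lam, hlam, ?_⟩
  unfold tr
  refine Set.mk_mem_prod ?_ ?_
  · rw [mem_closedBall_zero_iff]
    exact hle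
  · have h1 : (⌊z / a⌋ : ℝ) * a ≤ z := by
      have := Int.floor_le (z / a)
      rwa [le_div_iff₀ ha] at this
    have h2 : z < ((⌊z / a⌋ : ℝ) + 1) * a := by
      have := Int.lt_floor_add_one (z / a)
      rwa [div_lt_iff₀ ha] at this
    constructor
    · push_cast
      linarith
    · push_cast
      linarith

end H610AF
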