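import Pool.Agent.H610R2.AF.Defs

namespace H610AF

theorem com_val (K : ℕ) (j : Fin (K + 1)) (hj : j ≠ 0) :
    (((j - 1 : Fin (K + 1)) : ℕ) : ℝ) + 1 = ((j : ℕ) : ℝ) := by
  have h1 : ((j - 1 : Fin (K + 1)) : ℕ) + 1 = (j : ℕ) := by
    rw [Fin.coe_sub_one, if_neg hj]
    have h3 : (j : ℕ) ≠ 0 := fun h => hj (Fin.ext h)
    omega
  exact_mod_cast h1

theorem com_last (K : ℕ) : (((0 - 1 : Fin (K + 1)) : ℕ) : ℝ) = K := by
  rw [Fin.coe_sub_one, if_pos rfl]

theorem com_phi (K : ℕ) : Real.exp (aa K * ((K : ℝ) + 1)) = Real.goldenRatio := by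
  have h : (K : ℝ) + 1 ≠ 0 := by positivity
  unfold aa
  rw [div_mul_cancel₀ _ h, Real.exp_log Real.goldenRatio_pos]

theorem com_psi (K : ℕ) : -Real.exp (-(aa K * ((K : ℝ) + 1))) = Real.goldenConj := by
  rw [Real.exp_neg, com_phi, Real.inv_goldenRatio, neg_neg]

theorem t_COM : S_COM := by
  intro K r s v
  funext x
  rcases x with (j | j) | i
  · show Real.exp (aa K) * (s * (Real.exp (aa K * ((j - 1 : Fin (K + 1)) : ℕ)) *
      (Real.goldenRatio * (v.1 (j - 1)).1 + (v.1 (j - 1)).2))) =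
      s * (Real.exp (aa K * (j : ℕ)) * (Real.goldenRatio * ((Af K r v).1 j).1 +
        ((Af K r v).1 j).2))
    by_cases hj : j = 0
    · subst hj
      have e1 : (Af K r v).1 0 = ((v.1 (0 - 1)).1 + (v.1 (0 - 1)).2, (v.1 (0 - 1)).1) := by
        simp [Af]
      rw [e1, com_last]
      have e2 : Real.exp (aa K) * Real.exp (aa K * K) = Real.goldenRatio := by
        rw [← com_phi K, ← Real.exp_add]
        congr 1
        ring
      have e3 := Real.goldenRatio_sq
      simp only [Fin.val_zero, Nat.cast_zero, mul_zero, Real.exp_zero, one_mul, Int.cast_add]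
      linear_combination s * (Real.goldenRatio * ((v.1 (0 - 1)).1 : ℝ) + (v.1 (0 - 1)).2) * e2 +
        s * ((v.1 (0 - 1)).1 : ℝ) * e3
    · have e1 : (Af K r v).1 j = v.1 (j - 1) := by simp [Af, hj]
      have e2 : Real.exp (aa K) * Real.exp (aa K * ((j - 1 : Fin (K + 1)) : ℕ)) =
          Real.exp (aa K * (j : ℕ)) := by
        rw [← com_val K j hj, ← Real.exp_add]
        congr 1
        ring
      rw [e1]
      linear_combination s * (Real.goldenRatio * ((v.1 (j - 1)).1 : ℝ) + (v.1 (j - 1)).2) * e2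
  · show sg K j * Real.exp (-(aa K)) * (s * (Real.exp (-(aa K * ((j - 1 : Fin (K + 1)) : ℕ))) *
      (Real.goldenConj * (v.1 (j - 1)).1 + (v.1 (j - 1)).2))) =
      s * (Real.exp (-(aa K * (j : ℕ))) * (Real.goldenConj * ((Af K r v).1 j).1 +
        ((Af K r v).1 j).2))
    by_cases hj : j = 0
    · subst hj
      have e1 : (Af K r v).1 0 = ((v.1 (0 - 1)).1 + (v.1 (0 - 1)).2, (v.1 (0 - 1)).1) := by
        simp [Af]
      have e0 : sg K 0 = -1 := if_pos rfl
      rw [e1, com_last, e0]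
      have e2 : -(Real.exp (-(aa K)) * Real.exp (-(aa K * K))) = Real.goldenConj := by
        rw [← com_psi K, ← Real.exp_add]
        congr 2
        ring
      have e3 := Real.goldenConj_sq
      simp only [Fin.val_zero, Nat.cast_zero, mul_zero, neg_zero, Real.exp_zero, one_mul,
        Int.cast_add]
      linear_combination s * (Real.goldenConj * ((v.1 (0 - 1)).1 : ℝ) + (v.1 (0 - 1)).2) * e2 +
        s * ((v.1 (0 - 1)).1 : ℝ) * e3
    · have e1 : (Af K r v).1 j = v.1 (j - 1) := by simp [Af, hj]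
      have e0 : sg K j = 1 := if_neg hj
      have e2 : Real.exp (-(aa K)) * Real.exp (-(aa K * ((j - 1 : Fin (K + 1)) : ℕ))) =
          Real.exp (-(aa K * (j : ℕ))) := by
        rw [← com_val K j hj, ← Real.exp_add]
        congr 1
        ring
      rw [e1, e0]
      linear_combination s * (Real.goldenConj * ((v.1 (j - 1)).1 : ℝ) + (v.1 (j - 1)).2) * e2
  · rfl

end H610AF
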