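import Pool.Agent.H610R2.AF.Defs

/-! COV: the lattice is cocompact, covering radius. -/

namespace H610AF

theorem cov_exp (K : ℕ) (j : Fin (K + 1)) : Real.exp (aa K * (j : ℕ)) ≤ 2 ∧
    Real.exp (-(aa K * (j : ℕ))) ≤ 1 := by
  have hlog : 0 ≤ Real.log Real.goldenRatio := Real.log_nonneg Real.one_lt_goldenRatio.le
  have hK : (0 : ℝ) < (K : ℝ) + 1 := by positivity
  have ha : 0 ≤ aa K := by unfold aa; positivity
  have hj : ((j : ℕ) : ℝ) ≤ (K : ℝ) + 1 := by
    have := j.2
    exact_mod_cast this.le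
  have hj0 : (0 : ℝ) ≤ ((j : ℕ) : ℝ) := Nat.cast_nonneg _
  constructor
  · have h1 : aa K * (j : ℕ) ≤ Real.log Real.goldenRatio := by
      have h2 : aa K * ((K : ℝ) + 1) = Real.log Real.goldenRatio := by
        unfold aa
        field_simp
      rw [← h2]
      exact mul_le_mul_of_nonneg_left hj ha
    calc Real.exp (aa K * (j : ℕ)) ≤ Real.exp (Real.log Real.goldenRatio) := Real.exp_le_exp.2 h1
      _ = Real.goldenRatio := Real.exp_log Real.goldenRatio_pos
      _ ≤ 2 := Real.goldenRatio_lt_two.le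
  · rw [Real.exp_le_one_iff]
    have := mul_nonneg ha hj0
    linarith

/-- rounding in the golden lattice -/
theorem cov_round (X Y : ℝ) : ∃ m n : ℤ,
    |Real.goldenRatio * (m : ℝ) + n - X| ≤ 2 ∧ |Real.goldenConj * (m : ℝ) + n - Y| ≤ 2 := by
  have h1 := Real.one_lt_goldenRatio
  have h2 := Real.goldenRatio_lt_two
  have h3 := Real.goldenConj_neg
  have h4 := Real.neg_one_lt_goldenConj
  have h5 : Real.goldenRatio - Real.goldenConj ≠ 0 := by linarith
  set m0 : ℝ := (X - Y) / (Real.goldenRatio - Real.goldenConj) with hm0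
  set n0 : ℝ := X - Real.goldenRatio * m0 with hn0
  have hY : Real.goldenConj * m0 + n0 = Y := by
    have h6 : (Real.goldenRatio - Real.goldenConj) * m0 = X - Y := by
      rw [hm0]
      field_simp
    rw [hn0]
    linarith
  have hr1 := abs_sub_round m0
  have hr2 := abs_sub_round n0
  rw [abs_le] at hr1 hr2
  refine ⟨round m0, round n0, ?_, ?_⟩
  · have e : Real.goldenRatio * (round m0 : ℝ) + round n0 - X =
        -(Real.goldenRatio * (m0 - round m0)) - (n0 - round n0) := by rw [hn0]; ring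
    rw [e, abs_le]
    constructor <;> nlinarith
  · have e : Real.goldenConj * (round m0 : ℝ) + round n0 - Y =
        -(Real.goldenConj * (m0 - round m0)) - (n0 - round n0) := by rw [← hY]; ring
    rw [e, abs_le]
    constructor <;> nlinarith

theorem t_COV : S_COV := by
  intro K r
  refine ⟨10, by norm_num, fun s hs x => ?_⟩
  have hch : ∀ j : Fin (K + 1), ∃ m n : ℤ,
      |Real.goldenRatio * (m : ℝ) + n -
        (-(x (Sum.inl (Sum.inl j))) * Real.exp (-(aa K * (j : ℕ))) / s)| ≤ 2 ∧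
      |Real.goldenConj * (m : ℝ) + n -
        (-(x (Sum.inl (Sum.inr j))) * Real.exp (aa K * (j : ℕ)) / s)| ≤ 2 :=
    fun j => cov_round _ _
  choose m n hmn1 hmn2 using hch
  refine ⟨(fun j => (m j, n j), fun i => round (-(x (Sum.inr i)) / s)), ?_⟩
  rw [pi_norm_le_iff_of_nonneg (by positivity)]
  rintro ((j | j) | i)
  · show |x (Sum.inl (Sum.inl j)) + s * (Real.exp (aa K * (j : ℕ)) *
      (Real.goldenRatio * (m j : ℝ) + (n j : ℝ)))| ≤ 10 * s
    have h1 := hmn1 j
    obtain ⟨h2, -⟩ := cov_exp K j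
    have h3 : Real.exp (aa K * (j : ℕ)) * Real.exp (-(aa K * (j : ℕ))) = 1 := by
      rw [← Real.exp_add, add_neg_cancel, Real.exp_zero]
    have e : x (Sum.inl (Sum.inl j)) + s * (Real.exp (aa K * (j : ℕ)) *
        (Real.goldenRatio * (m j : ℝ) + (n j : ℝ))) = s * (Real.exp (aa K * (j : ℕ)) *
        (Real.goldenRatio * (m j : ℝ) + n j -
          (-(x (Sum.inl (Sum.inl j))) * Real.exp (-(aa K * (j : ℕ))) / s))) := by
      rw [div_eq_mul_inv]
      linear_combination (-(x (Sum.inl (Sum.inl j))) * (s * s⁻¹)) * h3 +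
        (-(x (Sum.inl (Sum.inl j)))) * mul_inv_cancel₀ hs.ne'
    rw [e, abs_mul, abs_mul, abs_of_pos hs, abs_of_pos (Real.exp_pos _)]
    have h4 : Real.exp (aa K * (j : ℕ)) * |Real.goldenRatio * (m j : ℝ) + n j -
          (-(x (Sum.inl (Sum.inl j))) * Real.exp (-(aa K * (j : ℕ))) / s)| ≤ 2 * 2 :=
      mul_le_mul h2 h1 (abs_nonneg _) (by norm_num)
    nlinarith
  · show |x (Sum.inl (Sum.inr j)) + s * (Real.exp (-(aa K * (j : ℕ))) *
      (Real.goldenConj * (m j : ℝ) + (n j : ℝ)))| ≤ 10 * s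
    have h1 := hmn2 j
    obtain ⟨-, h2⟩ := cov_exp K j
    have h3 : Real.exp (-(aa K * (j : ℕ))) * Real.exp (aa K * (j : ℕ)) = 1 := by
      rw [← Real.exp_add, neg_add_cancel, Real.exp_zero]
    have e : x (Sum.inl (Sum.inr j)) + s * (Real.exp (-(aa K * (j : ℕ))) *
        (Real.goldenConj * (m j : ℝ) + (n j : ℝ))) = s * (Real.exp (-(aa K * (j : ℕ))) *
        (Real.goldenConj * (m j : ℝ) + n j -
          (-(x (Sum.inl (Sum.inr j))) * Real.exp (aa K * (j : ℕ)) / s))) := by
      rw [div_eq_mul_inv]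
      linear_combination (-(x (Sum.inl (Sum.inr j))) * (s * s⁻¹)) * h3 +
        (-(x (Sum.inl (Sum.inr j)))) * mul_inv_cancel₀ hs.ne'
    rw [e, abs_mul, abs_mul, abs_of_pos hs, abs_of_pos (Real.exp_pos _)]
    have h4 : Real.exp (-(aa K * (j : ℕ))) * |Real.goldenConj * (m j : ℝ) + n j -
          (-(x (Sum.inl (Sum.inr j))) * Real.exp (aa K * (j : ℕ)) / s)| ≤ 1 * 2 :=
      mul_le_mul h2 h1 (abs_nonneg _) (by norm_num)
    nlinarith
  · show |x (Sum.inr i) + s * (round (-(x (Sum.inr i)) / s) : ℝ)| ≤ 10 * s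
    have h1 := abs_sub_round (-(x (Sum.inr i)) / s)
    have e : x (Sum.inr i) + s * (round (-(x (Sum.inr i)) / s) : ℝ) =
        s * (-(-(x (Sum.inr i)) / s - round (-(x (Sum.inr i)) / s))) := by
      field_simp
      ring
    rw [e, abs_mul, abs_neg, abs_of_pos hs]
    nlinarith

end H610AF
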