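import Pool.Agent.H610R2.AF.Defs
set_option autoImplicit false

open scoped ContDiff

namespace H610AF

theorem cur_aux (c b : ℝ) (hc : |c| ≤ 1) (hb : 0 ≤ b) : |c * b| ≤ b := by
  rw [abs_mul, abs_of_nonneg hb]
  exact mul_le_of_le_one_left hb hc

theorem cur_div (N D : ℝ) (h : |N| ≤ D) : -1 ≤ N / D ∧ N / D ≤ 1 := by
  have hD : 0 ≤ D := (abs_nonneg N).trans h
  have h1 : |N / D| ≤ 1 := by
    rw [abs_div, abs_of_nonneg hD]
    exact div_le_one_of_le₀ h hD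
  exact abs_le.mp h1

theorem t_CUR : S_CUR := by
  intro hCHR hRIE hGRAM ι _ _ w hw g hg
  refine ⟨chr w, hCHR ι w g hg, ?_⟩
  intro y u v _
  unfold sec
  rw [hg, hRIE ι w y u v, hGRAM ι w y u v]
  apply cur_div
  have hA : |∑ i, w i ^ 2 * (Real.exp (2 * w i * y.2) * (u.2 * v.1 i - v.2 * u.1 i) ^ 2)| ≤
      ∑ i, (Real.exp (2 * w i * y.2) * (u.2 * v.1 i - v.2 * u.1 i) ^ 2) := by
    refine (Finset.abs_sum_le_sum_abs _ _).trans (Finset.sum_le_sum fun i _ => ?_)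
    refine cur_aux _ _ ?_ (mul_nonneg (Real.exp_pos _).le (sq_nonneg _))
    rw [abs_pow]
    exact pow_le_one₀ (abs_nonneg _) (hw i)
  have hB : |∑ i, ∑ j, w i * w j * (Real.exp (2 * w i * y.2) * Real.exp (2 * w j * y.2) *
        (u.1 i * v.1 j - u.1 j * v.1 i) ^ 2)| ≤
      ∑ i, ∑ j, (Real.exp (2 * w i * y.2) * Real.exp (2 * w j * y.2) *
        (u.1 i * v.1 j - u.1 j * v.1 i) ^ 2) := by
    refine (Finset.abs_sum_le_sum_abs _ _).trans (Finset.sum_le_sum fun i _ => ?_)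
    refine (Finset.abs_sum_le_sum_abs _ _).trans (Finset.sum_le_sum fun j _ => ?_)
    refine cur_aux _ _ ?_ (mul_nonneg (mul_nonneg (Real.exp_pos _).le (Real.exp_pos _).le)
      (sq_nonneg _))
    rw [abs_mul]
    exact mul_le_one₀ (hw i) (abs_nonneg _) (hw j)
  have hA' := abs_le.mp hA
  have hB' := abs_le.mp hB
  rw [abs_le]
  constructor <;> linarith [hA'.1, hA'.2, hB'.1, hB'.2]

end H610AF
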