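import Pool.Agent.H610R2.AF.Defs

/-! DAT: the data of the example. -/

namespace H610AF

theorem dat_emb_add (K r : ℕ) (s : ℝ) (v v' : (Fin (K + 1) → ℤ × ℤ) × (Fin r → ℤ)) :
    emb K r s (v + v') = emb K r s v + emb K r s v' := by
  funext i
  rcases i with (j | j) | i
  · simp only [emb, Sum.elim_inl, Pi.add_apply, Prod.fst_add, Prod.snd_add]
    push_cast; ring
  · simp only [emb, Sum.elim_inl, Sum.elim_inr, Pi.add_apply, Prod.fst_add, Prod.snd_add]
    push_cast; ring
  · simp only [emb, Sum.elim_inr, Pi.add_apply, Prod.snd_add]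
    push_cast; ring

theorem dat_emb_zero (K r : ℕ) (s : ℝ) : emb K r s 0 = 0 := by
  have h := dat_emb_add K r s 0 0
  rw [add_zero] at h
  exact left_eq_add.mp h

/-- the embedding as a homomorphism -/
noncomputable def datHom (K r : ℕ) (s : ℝ) :
    ((Fin (K + 1) → ℤ × ℤ) × (Fin r → ℤ)) →+ (Idx K r → ℝ) where
  toFun := emb K r s
  map_zero' := dat_emb_zero K r s
  map_add' := dat_emb_add K r s

theorem dat_mem (K r : ℕ) (s : ℝ) (x : Idx K r → ℝ) :
    x ∈ (datHom K r s).range ↔ ∃ v, emb K r s v = x := Iff.rfl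

theorem dat_aa_pos (K : ℕ) : 0 < aa K := by
  unfold aa
  have h : 0 < Real.log Real.goldenRatio := Real.log_pos Real.one_lt_goldenRatio
  positivity

theorem dat_wt (K r : ℕ) (i : Idx K r) : |wt K r i| ≤ 1 := by
  rcases i with (j | j) | i <;> simp [wt]

theorem t_DAT : S_DAT := by
  intro hLIN hCOM hBIJ hISL hFIN hCOV hNON hPOW K r η hη
  obtain ⟨L, hL⟩ := hLIN K r
  obtain ⟨B, hB, hcov⟩ := hCOV K r
  set s : ℝ := η / (2 * B) with hs
  have hs0 : 0 < s := by positivity
  refine ⟨L, B * s, (datHom K r s).range, by positivity, ?_, ?_, ?_⟩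
  · have : B * s = η / 2 := by rw [hs]; field_simp
    rw [this]; linarith
  · refine ⟨dat_wt K r, dat_aa_pos K, ?_, ?_, ?_, ?_⟩
    · intro x
      rw [dat_mem, dat_mem]
      constructor
      · rintro ⟨v, hv⟩
        obtain ⟨u, hu⟩ := (hBIJ K r).2 v
        refine ⟨u, ?_⟩
        apply L.injective
        rw [hL, hCOM, hu, hv]
      · rintro ⟨v, hv⟩
        exact ⟨Af K r v, by rw [← hCOM, hv, hL]⟩
    · intro R
      refine ((hFIN K r s R hs0).image (emb K r s)).subset ?_
      rintro x ⟨hx, hx2⟩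
      obtain ⟨v, hv⟩ := (dat_mem K r s x).1 hx
      exact ⟨v, by rw [Set.mem_setOf_eq, hv]; exact hx2, hv⟩
    · intro x
      obtain ⟨v, hv⟩ := hcov s hs0 x
      exact ⟨emb K r s v, ⟨v, rfl⟩, hv⟩
    · intro z u v
      rw [hL, hL]
      exact hISL K r z u v
  · intro n hn
    exact ⟨emb K r s (fun _ => (0, 1), 0), ⟨_, rfl⟩,
      fun c => hNON hPOW K r L hL s hs0 n hn c⟩

end H610AF
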