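import Pool.Agent.H610R2.AF.Defs

/-! DIA: the diameter of the quotient is at most the length of a segment which starts at a level
between `0` and `a`. -/

open scoped ContDiff

namespace H610AF

theorem dia_tr {ι : Type} (L : (ι → ℝ) ≃ₗ[ℝ] (ι → ℝ)) (a : ℝ) (m : ℤ) (lam : ι → ℝ)
    (x v : (ι → ℝ) × ℝ) (t : ℝ) :
    tr L a m lam (x + t • v) = tr L a m lam x + t • (((L ^ m) v.1, v.2) : (ι → ℝ) × ℝ) := by
  unfold tr
  ext1
  · simp only [Prod.fst_add, Prod.smul_fst, map_add, map_smul]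
    abel
  · simp only [Prod.snd_add, Prod.smul_snd, smul_eq_mul]
    ring

theorem t_DIA : S_DIA := by
  intro hSEG hISOM hGRP ι _ _ w L a δ Λ hD g hg Γ hΓ D hlt x y
  obtain ⟨hI, -⟩ := hISOM ι w L a δ Λ hD g hg
  have ha := hD.a0
  -- elements of the group
  have hmem : ∀ (m : ℤ) (lam : ι → ℝ), lam ∈ Λ → ∃ γ ∈ Γ, ∀ p, γ p = tr L a m lam p := by
    obtain ⟨Γ', hΓ', h'⟩ := hGRP ι w L a δ Λ hD
    have hEq : Γ' = Γ := SetLike.coe_injective (hΓ'.trans hΓ.symm)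
    rwa [hEq] at h'
  -- the first element
  set m0 : ℤ := -⌊x.2 / a⌋ with hm0
  have hx0 : 0 ≤ x.2 + m0 * a := by
    have h1 := Int.floor_le (x.2 / a)
    rw [le_div_iff₀ ha] at h1
    rw [hm0]; push_cast; linarith
  have hx1 : x.2 + m0 * a ≤ a := by
    have h1 := (Int.lt_floor_add_one (x.2 / a)).le
    rw [div_le_iff₀ ha] at h1
    rw [hm0]; push_cast; linarith
  obtain ⟨γ0, hγ0, h0⟩ := hmem m0 0 Λ.zero_mem
  set x' : (ι → ℝ) × ℝ := tr L a m0 0 x with hx'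
  have hx'2 : x'.2 = x.2 + m0 * a := rfl
  -- the second element
  set m : ℤ := round ((x'.2 - y.2) / a) with hm
  have hm1 : |y.2 + m * a - x'.2| ≤ a / 2 := by
    have h1 := abs_sub_round ((x'.2 - y.2) / a)
    rw [← hm] at h1
    have h2 : y.2 + m * a - x'.2 = - (a * ((x'.2 - y.2) / a - m)) := by
      field_simp; ring
    rw [h2, abs_neg, abs_mul, abs_of_pos ha]
    nlinarith
  obtain ⟨lam, hlam, hl⟩ := hD.coc ((L ^ m) y.1 - x'.1)
  obtain ⟨γ1, hγ1, h1⟩ := hmem m lam hlam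
  set y' : (ι → ℝ) × ℝ := tr L a m lam y with hy'
  set h : (ι → ℝ) × ℝ := y' - x' with hh
  have hh2 : |h.2| ≤ a / 2 := hm1
  have hh1 : ‖h.1‖ ≤ δ := by
    have h2 : h.1 = (L ^ m) y.1 - x'.1 + lam := by
      rw [hh, hy']
      show (L ^ m) y.1 + lam - x'.1 = _
      abel
    rw [h2]; exact hl
  have hδ : 0 ≤ δ := (norm_nonneg _).trans hh1
  -- the path
  refine ⟨γ0⁻¹ * γ1, Γ.mul_mem (Γ.inv_mem hγ0) hγ1, ?_⟩
  set v : (ι → ℝ) × ℝ := (γ0⁻¹ * γ1) y - x with hv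
  have hv1 : (((L ^ m0) v.1, v.2) : (ι → ℝ) × ℝ) = h := by
    have h2 := dia_tr L a m0 0 x v 1
    rw [one_smul, one_smul] at h2
    have h3 : x + v = (γ0⁻¹ * γ1) y := by rw [hv]; abel
    have h4 : tr L a m0 0 ((γ0⁻¹ * γ1) y) = y' := by
      rw [← h0, ← Equiv.Perm.mul_apply, mul_inv_cancel_left, h1]
    rw [h3, h4] at h2
    rw [hh, h2, ← hx']
    abel
  refine ⟨fun t => x + t • v, ?_, ?_, ?_, ?_⟩
  · exact contDiff_const.add (contDiff_id.smul contDiff_const)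
  · simp
  · simp only [one_smul, hv]; abel
  · refine lt_of_le_of_lt ?_ hlt
    have hder : ∀ t : ℝ, deriv (fun t : ℝ => x + t • v) t = v := by
      intro t
      have h2 : HasDerivAt (fun t : ℝ => x + t • v) ((1 : ℝ) • v) t :=
        ((hasDerivAt_id t).smul_const v).const_add x
      rw [h2.deriv, one_smul]
    have hint : pathLength g (fun t => x + t • v) =
        ∫ t in (0:ℝ)..1, Real.sqrt (bil w (x' + t • h) h h) := by
      unfold pathLength
      refine intervalIntegral.integral_congr fun t _ => ?_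
      simp only [hder, hg]
      congr 1
      rw [← hI m0 (x + t • v) v v 0, dia_tr, hv1, ← hx']
    rw [hint]
    exact hSEG ι w a δ hD.w1 ha hδ x' h (hx'2 ▸ hx0) (hx'2 ▸ hx1) hh2 hh1

end H610AF
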