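import Mathlib
import Pool.Agent.H610R2.AF.Defs

/-! Task FIN: the lattice is discrete. -/

open scoped ContDiff

namespace H610AF

theorem fin_aa_nonneg (K : ℕ) : 0 ≤ aa K := by
  unfold aa
  exact div_nonneg (Real.log_nonneg Real.one_lt_goldenRatio.le) (by positivity)

theorem fin_exp_le (K : ℕ) (j : Fin (K + 1)) :
    1 ≤ Real.exp (aa K * (j : ℕ)) ∧ Real.exp (aa K * (j : ℕ)) ≤ 2 := by
  constructor
  · exact Real.one_le_exp (mul_nonneg (fin_aa_nonneg K) (Nat.cast_nonneg _))
  · have h1 : aa K * (j : ℕ) ≤ Real.log Real.goldenRatio := by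
      have hj : ((j : ℕ) : ℝ) ≤ (K : ℝ) + 1 := by
        have := j.isLt
        exact_mod_cast this.le
      calc aa K * (j : ℕ) ≤ aa K * ((K : ℝ) + 1) :=
            mul_le_mul_of_nonneg_left hj (fin_aa_nonneg K)
        _ = Real.log Real.goldenRatio := by
            unfold aa
            have : (K : ℝ) + 1 ≠ 0 := by positivity
            field_simp
    calc Real.exp (aa K * (j : ℕ)) ≤ Real.exp (Real.log Real.goldenRatio) :=
          Real.exp_le_exp.2 h1
      _ = Real.goldenRatio := Real.exp_log Real.goldenRatio_pos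
      _ ≤ 2 := Real.goldenRatio_lt_two.le

theorem fin_bounds (K r : ℕ) (s R : ℝ) (hs : 0 < s)
    (v : (Fin (K + 1) → ℤ × ℤ) × (Fin r → ℤ)) (hv : ‖emb K r s v‖ ≤ R) :
    (∀ j, |((v.1 j).1 : ℝ)| ≤ 3 * (R / s) ∧ |((v.1 j).2 : ℝ)| ≤ 7 * (R / s)) ∧
    ∀ i, |((v.2 i : ℤ) : ℝ)| ≤ R / s := by
  have hR : 0 ≤ R := (norm_nonneg _).trans hv
  have hc : ∀ i, |emb K r s v i| ≤ R := fun i => by
    have := (norm_le_pi_norm (emb K r s v) i).trans hv
    rwa [Real.norm_eq_abs] at this
  constructor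
  · intro j
    obtain ⟨he1, he2⟩ := fin_exp_le K j
    set e := Real.exp (aa K * (j : ℕ)) with he
    have he0 : 0 < e := by linarith
    have h1 := hc (Sum.inl (Sum.inl j))
    have h2 := hc (Sum.inl (Sum.inr j))
    have e1 : emb K r s v (Sum.inl (Sum.inl j)) =
        s * (e * (Real.goldenRatio * (v.1 j).1 + (v.1 j).2)) := rfl
    have e2 : emb K r s v (Sum.inl (Sum.inr j)) =
        s * (e⁻¹ * (Real.goldenConj * (v.1 j).1 + (v.1 j).2)) := by
      have : emb K r s v (Sum.inl (Sum.inr j)) = s * (Real.exp (-(aa K * (j : ℕ))) *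
          (Real.goldenConj * (v.1 j).1 + (v.1 j).2)) := rfl
      rw [this, Real.exp_neg]
    rw [e1, abs_mul, abs_mul, abs_of_pos hs, abs_of_pos he0] at h1
    rw [e2, abs_mul, abs_mul, abs_of_pos hs, abs_of_pos (inv_pos.2 he0)] at h2
    set m : ℝ := ((v.1 j).1 : ℝ) with hm
    set n : ℝ := ((v.1 j).2 : ℝ) with hn
    set A := |Real.goldenRatio * m + n| with hA
    set B := |Real.goldenConj * m + n| with hB
    have hA0 : 0 ≤ A := abs_nonneg _
    have hB0 : 0 ≤ B := abs_nonneg _
    have hA1 : A ≤ R / s := by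
      rw [le_div_iff₀ hs]
      calc A * s = s * (1 * A) := by ring
        _ ≤ s * (e * A) := by
            refine mul_le_mul_of_nonneg_left ?_ hs.le
            exact mul_le_mul_of_nonneg_right he1 hA0
        _ ≤ R := h1
    have hB1 : B ≤ 2 * (R / s) := by
      have : B / 2 ≤ R / s := by
        rw [le_div_iff₀ hs]
        calc B / 2 * s = s * (2⁻¹ * B) := by ring
          _ ≤ s * (e⁻¹ * B) := by
              refine mul_le_mul_of_nonneg_left ?_ hs.le
              refine mul_le_mul_of_nonneg_right ?_ hB0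
              exact inv_anti₀ he0 he2
          _ ≤ R := h2
      linarith
    have hdiff : Real.goldenRatio - Real.goldenConj = Real.sqrt 5 :=
      Real.goldenRatio_sub_goldenConj
    have h5 : 1 ≤ Real.sqrt 5 := by
      rw [Real.one_le_sqrt]; norm_num
    have hm1 : |m| ≤ 3 * (R / s) := by
      have h3 : Real.sqrt 5 * m = (Real.goldenRatio * m + n) - (Real.goldenConj * m + n) := by
        rw [← hdiff]; ring
      have h4 : |Real.sqrt 5 * m| ≤ A + B := by
        rw [h3]; exact abs_sub _ _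
      rw [abs_mul, abs_of_nonneg (by linarith : (0:ℝ) ≤ Real.sqrt 5)] at h4
      have h6 : 1 * |m| ≤ Real.sqrt 5 * |m| := mul_le_mul_of_nonneg_right h5 (abs_nonneg m)
      linarith
    refine ⟨hm1, ?_⟩
    have h7 : n = (Real.goldenRatio * m + n) - Real.goldenRatio * m := by ring
    have h8 : |n| ≤ A + |Real.goldenRatio * m| := by
      calc |n| = |(Real.goldenRatio * m + n) - Real.goldenRatio * m| := by rw [← h7]
        _ ≤ A + |Real.goldenRatio * m| := abs_sub _ _
    rw [abs_mul, abs_of_pos Real.goldenRatio_pos] at h8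
    have h9 : Real.goldenRatio * |m| ≤ 2 * (3 * (R / s)) :=
      mul_le_mul Real.goldenRatio_lt_two.le hm1 (abs_nonneg m) (by norm_num)
    linarith
  · intro i
    have h1 := hc (Sum.inr i)
    have e1 : emb K r s v (Sum.inr i) = s * (v.2 i : ℝ) := rfl
    rw [e1, abs_mul, abs_of_pos hs] at h1
    rw [le_div_iff₀ hs]
    linarith

theorem t_FIN : S_FIN := by
  intro K r s R hs
  set M : ℤ := ⌈7 * (R / s)⌉ with hM
  have hfin : (((Set.univ : Set (Fin (K + 1))).pi fun _ => (Set.Icc (-M) M) ×ˢ (Set.Icc (-M) M)) ×ˢ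
      ((Set.univ : Set (Fin r)).pi fun _ => Set.Icc (-M) M)).Finite := by
    refine Set.Finite.prod ?_ ?_
    · exact Set.Finite.pi' (fun _ => (Set.finite_Icc _ _).prod (Set.finite_Icc _ _)) |>.subset
        (by intro f hf i; exact hf i (Set.mem_univ i))
    · exact Set.Finite.pi' (fun _ => Set.finite_Icc _ _) |>.subset
        (by intro f hf i; exact hf i (Set.mem_univ i))
  refine hfin.subset ?_
  intro v hv
  have hv' : ‖emb K r s v‖ ≤ R := hv
  have hR : 0 ≤ R := (norm_nonneg _).trans hv'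
  have hRs : 0 ≤ R / s := div_nonneg hR hs.le
  obtain ⟨h1, h2⟩ := fin_bounds K r s R hs v hv'
  have key : ∀ z : ℤ, |(z : ℝ)| ≤ 7 * (R / s) → z ∈ Set.Icc (-M) M := by
    intro z hz
    have h3 : |(z : ℝ)| ≤ (M : ℝ) := hz.trans (Int.le_ceil _)
    have h4 : |z| ≤ M := by exact_mod_cast h3
    rw [abs_le] at h4
    exact h4
  refine ⟨?_, ?_⟩
  · intro j _
    refine ⟨key _ ?_, key _ (h1 j).2⟩
    exact (h1 j).1.trans (by linarith)
  · intro i _
    exact key _ ((h2 i).trans (by linarith))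

end H610AF
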