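import Pool.Agent.H610R2.AF.Defs

set_option autoImplicit false

namespace H610AF

theorem t_FRE : S_FRE := by
  intro ι _ _ w L a δ Λ hD γ hγ hne x hx
  obtain ⟨m, lam, _, h⟩ := hγ
  apply hne
  have h1 : tr L a m lam x = x := by rw [← h x, hx]
  have h2 : x.2 + (m : ℝ) * a = x.2 := congrArg Prod.snd h1
  have h3 : (m : ℝ) * a = 0 := by linarith
  have h4 : (m : ℝ) = 0 := by
    rcases mul_eq_zero.1 h3 with h | h
    · exact h
    · exact absurd h (ne_of_gt hD.a0)
  have hm : m = 0 := by exact_mod_cast h4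
  subst hm
  have h5 : (L ^ (0 : ℤ)) x.1 + lam = x.1 := congrArg Prod.fst h1
  have h6 : lam = 0 := by
    rw [zpow_zero] at h5
    have h7 : x.1 + lam = x.1 := h5
    exact add_eq_left.1 h7
  subst h6
  apply Equiv.ext
  intro p
  rw [h p]
  show ((L ^ (0 : ℤ)) p.1 + 0, p.2 + ((0 : ℤ) : ℝ) * a) = p
  rw [zpow_zero]
  ext
  · simp
  · simp

end H610AF
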