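import Pool.Agent.H610R2.AF.Defs

/-! GRAM: the denominator of the sectional curvature. -/

namespace H610AF

theorem gram_lagrange {ι : Type} [Fintype ι] (e a b : ι → ℝ) :
    ∑ i, ∑ j, (e i * e j * (a i * b j - a j * b i) ^ 2) =
      2 * ((∑ i, e i * (a i * a i)) * (∑ i, e i * (b i * b i))) -
        2 * ((∑ i, e i * (a i * b i)) * (∑ i, e i * (a i * b i))) := by
  have h1 : ∀ i j, e i * e j * (a i * b j - a j * b i) ^ 2 =
      (e i * (a i * a i)) * (e j * (b j * b j)) + (e i * (b i * b i)) * (e j * (a j * a j)) -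
        2 * ((e i * (a i * b i)) * (e j * (a j * b j))) := by
    intro i j; ring
  simp only [h1, Finset.sum_sub_distrib, Finset.sum_add_distrib, ← Finset.mul_sum,
    ← Finset.sum_mul]
  ring

theorem t_GRAM : S_GRAM := by
  intro ι _ _ w y u v
  have hb : ∀ a b : (ι → ℝ) × ℝ, bil w y a b =
      ∑ i, Real.exp (2 * w i * y.2) * (a.1 i * b.1 i) + a.2 * b.2 := fun a b => rfl
  rw [hb, hb, hb, gram_lagrange (fun i => Real.exp (2 * w i * y.2)) u.1 v.1]
  have h2 : ∑ i, (Real.exp (2 * w i * y.2) * (u.2 * v.1 i - v.2 * u.1 i) ^ 2) =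
      u.2 ^ 2 * (∑ i, Real.exp (2 * w i * y.2) * (v.1 i * v.1 i)) +
      v.2 ^ 2 * (∑ i, Real.exp (2 * w i * y.2) * (u.1 i * u.1 i)) -
      2 * (u.2 * v.2) * (∑ i, Real.exp (2 * w i * y.2) * (u.1 i * v.1 i)) := by
    rw [Finset.mul_sum, Finset.mul_sum, Finset.mul_sum, ← Finset.sum_add_distrib,
      ← Finset.sum_sub_distrib]
    refine Finset.sum_congr rfl fun i _ => ?_
    ring
  rw [h2]
  ring

end H610AF
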