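import Pool.Agent.H610R2.AF.Defs

/-! Project AF, task GRP: the maps `tr L a m lam` form a group. -/

set_option autoImplicit false
set_option linter.unusedSectionVars false

namespace H610AF

section GrpAux
variable {ι : Type} [Fintype ι] [DecidableEq ι]

theorem grp_comp (L : (ι → ℝ) ≃ₗ[ℝ] (ι → ℝ)) (a : ℝ) (m m' : ℤ) (lam lam' : ι → ℝ)
    (p : (ι → ℝ) × ℝ) :
    tr L a m lam (tr L a m' lam' p) = tr L a (m + m') ((L ^ m) lam' + lam) p := by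
  unfold tr
  ext1
  · simp only [zpow_add, LinearEquiv.mul_apply, map_add]
    abel
  · simp only [Int.cast_add]
    ring

theorem grp_id (L : (ι → ℝ) ≃ₗ[ℝ] (ι → ℝ)) (a : ℝ) (p : (ι → ℝ) × ℝ) :
    tr L a 0 0 p = p := by
  unfold tr
  ext1
  · simp
  · simp

theorem grp_inv_mem (L : (ι → ℝ) ≃ₗ[ℝ] (ι → ℝ)) (Λ : AddSubgroup (ι → ℝ))
    (h : ∀ x, L x ∈ Λ ↔ x ∈ Λ) (m : ℤ) : ∀ x, (L ^ m) x ∈ Λ ↔ x ∈ Λ := by
  induction m using Int.induction_on with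
  | zero => intro x; simp
  | succ k ih =>
    intro x
    rw [zpow_add, zpow_one, LinearEquiv.mul_apply, ih, h]
  | pred k ih =>
    intro x
    rw [zpow_sub, zpow_one, LinearEquiv.mul_apply, ih]
    rw [← h (L⁻¹ x)]
    have : L (L⁻¹ x) = x := by
      rw [← LinearEquiv.mul_apply, mul_inv_cancel]
      rfl
    rw [this]

theorem grp_left (L : (ι → ℝ) ≃ₗ[ℝ] (ι → ℝ)) (a : ℝ) (m : ℤ) (lam : ι → ℝ)
    (p : (ι → ℝ) × ℝ) :
    tr L a (-m) (-((L ^ (-m)) lam)) (tr L a m lam p) = p := by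
  rw [grp_comp]
  have h1 : (-m + m : ℤ) = 0 := by ring
  rw [h1, add_neg_cancel, grp_id]

theorem grp_right (L : (ι → ℝ) ≃ₗ[ℝ] (ι → ℝ)) (a : ℝ) (m : ℤ) (lam : ι → ℝ)
    (p : (ι → ℝ) × ℝ) :
    tr L a m lam (tr L a (-m) (-((L ^ (-m)) lam)) p) = p := by
  rw [grp_comp]
  have h1 : (m + -m : ℤ) = 0 := by ring
  have h2 : (L ^ m) (-((L ^ (-m)) lam)) + lam = 0 := by
    rw [map_neg, ← LinearEquiv.mul_apply, ← zpow_add, h1, zpow_zero]
    simp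
  rw [h1, h2, grp_id]

/-- the map `tr L a m lam` as a permutation -/
noncomputable def grpPerm (L : (ι → ℝ) ≃ₗ[ℝ] (ι → ℝ)) (a : ℝ) (m : ℤ) (lam : ι → ℝ) :
    Equiv.Perm ((ι → ℝ) × ℝ) where
  toFun := tr L a m lam
  invFun := tr L a (-m) (-((L ^ (-m)) lam))
  left_inv := grp_left L a m lam
  right_inv := grp_right L a m lam

end GrpAux

theorem t_GRP : S_GRP := by
  intro ι _ _ w L a δ Λ hD
  have hinv := grp_inv_mem L Λ hD.inv
  refine ⟨{ carrier := grpSet L a Λ, mul_mem' := ?_, one_mem' := ?_, inv_mem' := ?_ }, rfl, ?_⟩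
  · rintro x y ⟨m, lam, hl, hx⟩ ⟨m', lam', hl', hy⟩
    refine ⟨m + m', (L ^ m) lam' + lam, Λ.add_mem ((hinv m lam').2 hl') hl, fun p => ?_⟩
    rw [Equiv.Perm.mul_apply, hy, hx, grp_comp]
  · exact ⟨0, 0, Λ.zero_mem, fun p => by rw [grp_id]; rfl⟩
  · rintro x ⟨m, lam, hl, hx⟩
    refine ⟨-m, -((L ^ (-m)) lam), Λ.neg_mem ((hinv (-m) lam).2 hl), fun p => ?_⟩
    rw [Equiv.Perm.inv_eq_iff_eq, hx, grp_right]
  · intro m lam hl
    exact ⟨grpPerm L a m lam, ⟨m, lam, hl, fun p => rfl⟩, fun p => rfl⟩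

end H610AF
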