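import Pool.Agent.H610R2.AF.Defs

namespace H610AF

theorem isl_shift (K : ℕ) (f : Fin (K + 1) → ℝ) : ∑ j : Fin (K + 1), f (j - 1) = ∑ j, f j :=
  Fintype.sum_equiv (Equiv.subRight (1 : Fin (K + 1))) _ _ fun _ => rfl

theorem isl_exp1 (a z : ℝ) : Real.exp (2 * (-1) * (z + a)) * (Real.exp a * Real.exp a) =
    Real.exp (2 * (-1) * z) := by
  rw [← Real.exp_add, ← Real.exp_add]
  congr 1
  ring

theorem isl_exp2 (a z : ℝ) : Real.exp (2 * 1 * (z + a)) * (Real.exp (-a) * Real.exp (-a)) =
    Real.exp (2 * 1 * z) := by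
  rw [← Real.exp_add, ← Real.exp_add]
  congr 1
  ring

theorem isl_sg (K : ℕ) (j : Fin (K + 1)) : sg K j * sg K j = 1 := by
  unfold sg
  split_ifs <;> norm_num

theorem t_ISL : S_ISL := by
  intro K r z u v
  rw [Fintype.sum_sum_type, Fintype.sum_sum_type, Fintype.sum_sum_type, Fintype.sum_sum_type]
  congr 1
  · congr 1
    · rw [← isl_shift K (fun j => Real.exp (2 * wt K r (Sum.inl (Sum.inl j)) * z) *
        (u (Sum.inl (Sum.inl j)) * v (Sum.inl (Sum.inl j))))]
      refine Finset.sum_congr rfl fun j _ => ?_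
      have h := isl_exp1 (aa K) z
      simp only [wt, Lf, Sum.elim_inl]
      rw [← h]
      ring
    · rw [← isl_shift K (fun j => Real.exp (2 * wt K r (Sum.inl (Sum.inr j)) * z) *
        (u (Sum.inl (Sum.inr j)) * v (Sum.inl (Sum.inr j))))]
      refine Finset.sum_congr rfl fun j _ => ?_
      have h := isl_exp2 (aa K) z
      have h2 := isl_sg K j
      simp only [wt, Lf, Sum.elim_inl, Sum.elim_inr]
      rw [← h]
      calc Real.exp (2 * 1 * (z + aa K)) *
            (sg K j * Real.exp (-aa K) * u (Sum.inl (Sum.inr (j - 1))) *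
              (sg K j * Real.exp (-aa K) * v (Sum.inl (Sum.inr (j - 1)))))
          = (sg K j * sg K j) * (Real.exp (2 * 1 * (z + aa K)) * (Real.exp (-aa K) *
              Real.exp (-aa K)) * (u (Sum.inl (Sum.inr (j - 1))) * v (Sum.inl (Sum.inr (j - 1))))) := by
            ring
        _ = _ := by rw [h2, one_mul]
  · refine Finset.sum_congr rfl fun i _ => ?_
    simp only [wt, Lf, Sum.elim_inr, mul_zero, zero_mul]

end H610AF
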