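import Pool.Agent.H610R2.AF.Defs

/-! Project AF, task ISOM: the maps `tr L a m lam` are isometries. -/

set_option autoImplicit false
set_option linter.unusedSectionVars false

open scoped ContDiff

namespace H610AF

section IsomAux
variable {ι : Type} [Fintype ι] [DecidableEq ι]

theorem isom_sum (w : ι → ℝ) (L : (ι → ℝ) ≃ₗ[ℝ] (ι → ℝ)) (a : ℝ)
    (iso : ∀ (z : ℝ) (u v : ι → ℝ), ∑ i, Real.exp (2 * w i * (z + a)) * (L u i * L v i) =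
      ∑ i, Real.exp (2 * w i * z) * (u i * v i)) (m : ℤ) :
    ∀ (z : ℝ) (u v : ι → ℝ),
      ∑ i, Real.exp (2 * w i * (z + m * a)) * ((L ^ m) u i * (L ^ m) v i) =
        ∑ i, Real.exp (2 * w i * z) * (u i * v i) := by
  induction m using Int.induction_on with
  | zero => intro z u v; simp
  | succ k ih =>
    intro z u v
    rw [← iso z u v, ← ih (z + a) (L u) (L v)]
    have e : ∀ x : ι → ℝ, (L ^ ((k : ℤ) + 1)) x = (L ^ (k : ℤ)) (L x) := fun x => by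
      rw [zpow_add, zpow_one, LinearEquiv.mul_apply]
    rw [e u, e v]
    have e2 : z + (((k : ℤ) + 1 : ℤ) : ℝ) * a = z + a + ((k : ℤ) : ℝ) * a := by
      push_cast; ring
    rw [e2]
  | pred k ih =>
    intro z u v
    have e : ∀ x : ι → ℝ, (L ^ (-(k : ℤ) - 1)) x = (L ^ (-(k : ℤ))) (L⁻¹ x) := fun x => by
      rw [zpow_sub, zpow_one, LinearEquiv.mul_apply]
    have hL : ∀ x : ι → ℝ, L (L⁻¹ x) = x := fun x => by
      rw [← LinearEquiv.mul_apply, mul_inv_cancel]; rfl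
    have h1 := iso (z - a) (L⁻¹ u) (L⁻¹ v)
    rw [hL, hL, sub_add_cancel] at h1
    rw [h1, ← ih (z - a) (L⁻¹ u) (L⁻¹ v), e u, e v]
    have e2 : z + ((-(k : ℤ) - 1 : ℤ) : ℝ) * a = z - a + ((-(k : ℤ) : ℤ) : ℝ) * a := by
      push_cast; ring
    rw [e2]

theorem isom_bil (w : ι → ℝ) (L : (ι → ℝ) ≃ₗ[ℝ] (ι → ℝ)) (a : ℝ)
    (iso : ∀ (z : ℝ) (u v : ι → ℝ), ∑ i, Real.exp (2 * w i * (z + a)) * (L u i * L v i) =
      ∑ i, Real.exp (2 * w i * z) * (u i * v i)) (m : ℤ) (y u v : (ι → ℝ) × ℝ) (lam : ι → ℝ) :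
    bil w (tr L a m lam y) ((L ^ m) u.1, u.2) ((L ^ m) v.1, v.2) = bil w y u v := by
  simp only [bil, LinearMap.mk₂_apply, tr]
  rw [isom_sum w L a iso m y.2 u.1 v.1]

/-- the linear part -/
noncomputable def isomLin (L : (ι → ℝ) ≃ₗ[ℝ] (ι → ℝ)) (m : ℤ) :
    ((ι → ℝ) × ℝ) →L[ℝ] ((ι → ℝ) × ℝ) :=
  (LinearMap.toContinuousLinearMap ((L ^ m : (ι → ℝ) ≃ₗ[ℝ] (ι → ℝ)) :
    (ι → ℝ) →ₗ[ℝ] (ι → ℝ))).prodMap (ContinuousLinearMap.id ℝ ℝ)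

theorem isom_lin_apply (L : (ι → ℝ) ≃ₗ[ℝ] (ι → ℝ)) (m : ℤ) (u : (ι → ℝ) × ℝ) :
    isomLin L m u = ((L ^ m) u.1, u.2) := rfl

theorem isom_tr_eq (L : (ι → ℝ) ≃ₗ[ℝ] (ι → ℝ)) (a : ℝ) (m : ℤ) (lam : ι → ℝ) :
    tr L a m lam = fun p => isomLin L m p + (lam, (m : ℝ) * a) := by
  funext p
  rw [isom_lin_apply]
  rfl

theorem isom_contDiff (L : (ι → ℝ) ≃ₗ[ℝ] (ι → ℝ)) (a : ℝ) (m : ℤ) (lam : ι → ℝ) :
    ContDiff ℝ ∞ (tr L a m lam) := by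
  rw [isom_tr_eq]
  exact (isomLin L m).contDiff.add contDiff_const

theorem isom_fderiv (L : (ι → ℝ) ≃ₗ[ℝ] (ι → ℝ)) (a : ℝ) (m : ℤ) (lam : ι → ℝ)
    (y : (ι → ℝ) × ℝ) : fderiv ℝ (tr L a m lam) y = isomLin L m := by
  rw [isom_tr_eq]
  exact ((isomLin L m).hasFDerivAt.add_const _).fderiv

theorem isom_right (L : (ι → ℝ) ≃ₗ[ℝ] (ι → ℝ)) (a : ℝ) (m : ℤ) (lam : ι → ℝ)
    (p : (ι → ℝ) × ℝ) :
    tr L a m lam (tr L a (-m) (-((L ^ (-m)) lam)) p) = p := by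
  have h1 : ∀ x, (L ^ m) ((L ^ (-m)) x) = x := fun x => by
    rw [← LinearEquiv.mul_apply, ← zpow_add, add_neg_cancel, zpow_zero]; rfl
  unfold tr
  ext1
  · simp only [map_add, map_neg, h1]
    abel
  · simp only [Int.cast_neg]
    ring

end IsomAux

theorem t_ISOM : S_ISOM := by
  intro ι _ _ w L a δ Λ hD g hg
  refine ⟨fun m y u v lam => isom_bil w L a hD.iso m y u v lam, ?_⟩
  rintro γ ⟨m, lam, hl, hγ⟩
  have e1 : (γ : (ι → ℝ) × ℝ → (ι → ℝ) × ℝ) = tr L a m lam := funext hγ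
  have e2 : (γ.symm : (ι → ℝ) × ℝ → (ι → ℝ) × ℝ) = tr L a (-m) (-((L ^ (-m)) lam)) := by
    funext p
    rw [Equiv.symm_apply_eq, hγ, isom_right]
  refine ⟨?_, ?_, ?_⟩
  · rw [e1]; exact isom_contDiff L a m lam
  · rw [e2]; exact isom_contDiff L a _ _
  · intro y u v
    rw [hγ, e1, isom_fderiv, isom_lin_apply, isom_lin_apply, hg]
    exact isom_bil w L a hD.iso m y u v lam

end H610AF
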