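import Pool.Agent.H610R2.AF.Defs

/-!
# Task LIN: the monodromy is a linear automorphism
-/

namespace H610AF

theorem lin_sg_mul (K : ℕ) (j : Fin (K + 1)) : sg K j * sg K j = 1 := by
  unfold sg
  split_ifs <;> norm_num

/-- the inverse of the monodromy -/
noncomputable def linInv (K r : ℕ) (x : Idx K r → ℝ) : Idx K r → ℝ :=
  Sum.elim (Sum.elim (fun j => Real.exp (-(aa K)) * x (Sum.inl (Sum.inl (j + 1))))
    (fun j => sg K (j + 1) * Real.exp (aa K) * x (Sum.inl (Sum.inr (j + 1)))))
    (fun i => x (Sum.inr i))

theorem lin_exp (K : ℕ) : Real.exp (aa K) * Real.exp (-(aa K)) = 1 := by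
  rw [← Real.exp_add, add_neg_cancel, Real.exp_zero]

theorem t_LIN : S_LIN := by
  intro K r
  refine ⟨
    { toFun := Lf K r
      map_add' := ?_
      map_smul' := ?_
      invFun := linInv K r
      left_inv := ?_
      right_inv := ?_ }, fun x => rfl⟩
  · intro x y
    funext i
    rcases i with (j | j) | i
    · simp only [Lf, Sum.elim_inl, Pi.add_apply]; ring
    · simp only [Lf, Sum.elim_inl, Sum.elim_inr, Pi.add_apply]; ring
    · simp only [Lf, Sum.elim_inr, Pi.add_apply]
  · intro c x
    funext i
    rcases i with (j | j) | i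
    · simp only [Lf, Sum.elim_inl, Pi.smul_apply, smul_eq_mul, RingHom.id_apply]; ring
    · simp only [Lf, Sum.elim_inl, Sum.elim_inr, Pi.smul_apply, smul_eq_mul, RingHom.id_apply]; ring
    · simp only [Lf, Sum.elim_inr, Pi.smul_apply, smul_eq_mul, RingHom.id_apply]
  · intro x
    funext i
    rcases i with (j | j) | i
    · simp only [Lf, linInv, Sum.elim_inl, add_sub_cancel_right]
      have := lin_exp K
      linear_combination (x (Sum.inl (Sum.inl j))) * this
    · simp only [Lf, linInv, Sum.elim_inl, Sum.elim_inr, add_sub_cancel_right]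
      have h1 := lin_exp K
      have h2 := lin_sg_mul K (j + 1)
      linear_combination (x (Sum.inl (Sum.inr j))) * h1 +
        (Real.exp (aa K) * Real.exp (-(aa K)) * x (Sum.inl (Sum.inr j))) * h2
    · simp only [Lf, linInv, Sum.elim_inr]
  · intro x
    funext i
    rcases i with (j | j) | i
    · simp only [Lf, linInv, Sum.elim_inl, sub_add_cancel]
      have := lin_exp K
      linear_combination (x (Sum.inl (Sum.inl j))) * this
    · simp only [Lf, linInv, Sum.elim_inl, Sum.elim_inr, sub_add_cancel]
      have h1 := lin_exp K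
      have h2 := lin_sg_mul K j
      linear_combination (x (Sum.inl (Sum.inr j))) * h1 +
        (Real.exp (aa K) * Real.exp (-(aa K)) * x (Sum.inl (Sum.inr j))) * h2
    · simp only [Lf, linInv, Sum.elim_inr]

end H610AF
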