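import Pool.Agent.H610R2.AF.Defs

/-! Task MET: `bil w` is a Riemannian metric. -/

open scoped ContDiff

namespace H610AF

theorem met_apply {ι : Type} [Fintype ι] [DecidableEq ι] (w : ι → ℝ) (y u v : (ι → ℝ) × ℝ) :
    bil w y u v = ∑ i, Real.exp (2 * w i * y.2) * (u.1 i * v.1 i) + u.2 * v.2 := rfl

theorem t_MET : S_MET := by
  intro ι _ _ w
  refine ⟨{ form := bil w, smooth := ?_, symm := ?_, pos := ?_ }, rfl⟩
  · intro u v
    simp only [met_apply]
    fun_prop
  · intro y u v
    simp only [met_apply]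
    congr 1
    · exact Finset.sum_congr rfl fun i _ => by ring
    · ring
  · intro y u hu
    rw [met_apply]
    have h1 : ∀ i, 0 ≤ Real.exp (2 * w i * y.2) * (u.1 i * u.1 i) := fun i =>
      mul_nonneg (Real.exp_pos _).le (mul_self_nonneg _)
    have h2 : 0 ≤ ∑ i, Real.exp (2 * w i * y.2) * (u.1 i * u.1 i) :=
      Finset.sum_nonneg fun i _ => h1 i
    by_cases hz : u.2 = 0
    · have hi : ∃ i, u.1 i ≠ 0 := by
        by_contra hno
        push Not at hno
        exact hu (Prod.ext (funext hno) hz)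
      obtain ⟨i, hi⟩ := hi
      have h3 : 0 < ∑ i, Real.exp (2 * w i * y.2) * (u.1 i * u.1 i) :=
        Finset.sum_pos' (fun i _ => h1 i) ⟨i, Finset.mem_univ i,
          mul_pos (Real.exp_pos _) (mul_self_pos.2 hi)⟩
      rw [hz]
      linarith
    · have := mul_self_pos.2 hz
      linarith

end H610AF
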