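import Mathlib
import Pool.Agent.H610R2.AF.Defs

open scoped ContDiff

namespace H610AF

theorem t_NON : S_NON := by
  intro hPOW K r L hL s hs n hn c h0
  let A : Module.End ℝ (Idx K r → ℝ) := (L : (Idx K r → ℝ) →ₗ[ℝ] (Idx K r → ℝ))
  have hA : ∀ (m : ℕ) (x : Idx K r → ℝ), (A ^ m) x = (L ^ m) x := by
    intro m
    induction m with
    | zero => intro x; rfl
    | succ m ih =>
      intro x
      rw [pow_succ, pow_succ]
      show (A ^ m) (A x) = (L ^ m) (L x)
      rw [ih]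
      rfl
  have hit : ∀ (c : ℕ) (x : Idx K r → ℝ),
      ((fun x : Idx K r → ℝ => x - (L ^ n) x)^[c]) x = ((1 - A ^ n) ^ c) x := by
    intro c
    induction c with
    | zero => intro x; rfl
    | succ c ih =>
      intro x
      rw [Function.iterate_succ_apply, ih, pow_succ]
      show _ = ((1 - A ^ n) ^ c) ((1 - A ^ n) x)
      congr 1
      show x - (L ^ n) x = x - (A ^ n) x
      rw [hA]
  have hfac : (1 - A ^ ((K + 1) * n)) =
      (∑ i ∈ Finset.range (K + 1), (A ^ n) ^ i) * (1 - A ^ n) := by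
    rw [geom_sum_mul_neg, ← pow_mul, mul_comm n]
  have hcomm : Commute (∑ i ∈ Finset.range (K + 1), (A ^ n) ^ i) (1 - A ^ n) := by
    unfold Commute SemiconjBy
    rw [geom_sum_mul_neg, mul_neg_geom_sum]
  have hcoord : ∀ (c : ℕ) (x : Idx K r → ℝ),
      (((1 - A ^ ((K + 1) * n)) ^ c) x) (Sum.inl (Sum.inl 0)) =
        (1 - Real.goldenRatio ^ n) ^ c * x (Sum.inl (Sum.inl 0)) := by
    intro c
    induction c with
    | zero => intro x; simp
    | succ c ih =>
      intro x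
      rw [pow_succ]
      show (((1 - A ^ ((K + 1) * n)) ^ c) ((1 - A ^ ((K + 1) * n)) x)) (Sum.inl (Sum.inl 0)) = _
      rw [ih]
      have : ((1 - A ^ ((K + 1) * n)) x) (Sum.inl (Sum.inl 0)) =
          x (Sum.inl (Sum.inl 0)) - Real.goldenRatio ^ n * x (Sum.inl (Sum.inl 0)) := by
        show x (Sum.inl (Sum.inl 0)) - ((A ^ ((K + 1) * n)) x) (Sum.inl (Sum.inl 0)) = _
        rw [hA, hPOW K r L hL n x 0]
      rw [this, pow_succ]
      ring
  rw [hit] at h0
  have h1 : ((1 - A ^ ((K + 1) * n)) ^ c) (emb K r s (fun _ => (0, 1), 0)) = 0 := by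
    rw [hfac, hcomm.mul_pow]
    show ((∑ i ∈ Finset.range (K + 1), (A ^ n) ^ i) ^ c)
      (((1 - A ^ n) ^ c) (emb K r s (fun _ => (0, 1), 0))) = 0
    rw [h0, map_zero]
  have h2 := hcoord c (emb K r s (fun _ => (0, 1), 0))
  rw [h1] at h2
  have h3 : emb K r s (fun _ => (0, 1), 0) (Sum.inl (Sum.inl 0)) = s := by
    simp [emb]
  rw [h3] at h2
  have hφ : 1 < Real.goldenRatio ^ n := one_lt_pow₀ Real.one_lt_goldenRatio hn.ne'
  have h4 : (1 - Real.goldenRatio ^ n) ^ c * s ≠ 0 := by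
    refine mul_ne_zero (pow_ne_zero _ ?_) hs.ne'
    linarith
  exact h4 h2.symm

end H610AF
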