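import Pool.Agent.H610R2.AF.Defs

open scoped ContDiff commutatorElement

namespace H610AF

section
variable {ι : Type} [Fintype ι] [DecidableEq ι]

/-- the permutation `tr L a m lam` -/
noncomputable def nvn_eq (L : (ι → ℝ) ≃ₗ[ℝ] (ι → ℝ)) (a : ℝ) (m : ℤ) (lam : ι → ℝ) :
    Equiv.Perm ((ι → ℝ) × ℝ) where
  toFun := tr L a m lam
  invFun := fun p => ((L ^ m).symm (p.1 - lam), p.2 - m * a)
  left_inv := by intro p; simp [tr]
  right_inv := by intro p; simp [tr]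

theorem nvn_apply (L : (ι → ℝ) ≃ₗ[ℝ] (ι → ℝ)) (a : ℝ) (m : ℤ) (lam : ι → ℝ)
    (p : (ι → ℝ) × ℝ) : nvn_eq L a m lam p = ((L ^ m) p.1 + lam, p.2 + m * a) := rfl

theorem nvn_mem (L : (ι → ℝ) ≃ₗ[ℝ] (ι → ℝ)) (a : ℝ) (Λ : AddSubgroup (ι → ℝ)) (m : ℤ)
    (lam : ι → ℝ) (h : lam ∈ Λ) : nvn_eq L a m lam ∈ grpSet L a Λ :=
  ⟨m, lam, h, fun _ => rfl⟩

theorem nvn_tau (L : (ι → ℝ) ≃ₗ[ℝ] (ι → ℝ)) (a : ℝ) (n : ℕ) :
    (nvn_eq L a 1 0) ^ n = nvn_eq L a n 0 := by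
  induction n with
  | zero =>
    apply Equiv.ext
    intro p
    rw [pow_zero, nvn_apply]
    simp
  | succ n ih =>
    rw [pow_succ, ih]
    apply Equiv.ext
    intro p
    rw [Equiv.Perm.mul_apply, nvn_apply, nvn_apply, nvn_apply]
    ext1
    · simp only [zpow_natCast, zpow_one, add_zero, pow_succ, LinearEquiv.mul_apply]
    · simp only [Int.cast_one, Int.cast_natCast, Nat.cast_add, Nat.cast_one]
      push_cast
      ring

theorem nvn_T (L : (ι → ℝ) ≃ₗ[ℝ] (ι → ℝ)) (a : ℝ) (lam : ι → ℝ) (n : ℕ) :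
    (nvn_eq L a 0 lam) ^ n = nvn_eq L a 0 ((n : ℝ) • lam) := by
  induction n with
  | zero =>
    apply Equiv.ext
    intro p
    rw [pow_zero, nvn_apply]
    simp
  | succ n ih =>
    rw [pow_succ, ih]
    apply Equiv.ext
    intro p
    rw [Equiv.Perm.mul_apply, nvn_apply, nvn_apply, nvn_apply]
    ext1
    · simp only [zpow_zero, LinearEquiv.coe_one, id_eq, Nat.cast_add, Nat.cast_one, add_smul,
        one_smul]
      rw [add_assoc, add_comm lam]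
    · simp

theorem nvn_comm (L : (ι → ℝ) ≃ₗ[ℝ] (ι → ℝ)) (a : ℝ) (mu : ι → ℝ) (n : ℕ) :
    ⁅nvn_eq L a 0 mu, nvn_eq L a n 0⁆ = nvn_eq L a 0 (mu - (L ^ n) mu) := by
  rw [commutatorElement_def, mul_inv_eq_iff_eq_mul, mul_inv_eq_iff_eq_mul]
  apply Equiv.ext
  intro p
  rw [Equiv.Perm.mul_apply, Equiv.Perm.mul_apply, Equiv.Perm.mul_apply, nvn_apply, nvn_apply,
    nvn_apply, nvn_apply, nvn_apply]
  ext1
  · simp only [zpow_zero, LinearEquiv.coe_one, id_eq, zpow_natCast, add_zero, map_add]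
    abel
  · simp

theorem nvn_iter (L : (ι → ℝ) ≃ₗ[ℝ] (ι → ℝ)) (n : ℕ) (lam : ι → ℝ) (t : ℝ) (c : ℕ) :
    (fun x : ι → ℝ => x - (L ^ n) x)^[c] (t • lam) =
      t • (fun x : ι → ℝ => x - (L ^ n) x)^[c] lam := by
  induction c with
  | zero => rfl
  | succ c ih =>
    rw [Function.iterate_succ_apply', Function.iterate_succ_apply', ih]
    rw [map_smul, smul_sub]

theorem nvn_low {G : Type*} [Group G] (hG : Group.IsNilpotent G) :
    ∃ n, (⊤ : Subgroup G).lowerCentralSeries n = ⊥ := nilpotent_iff_lowerCentralSeries.1 hG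

theorem nvn_nil {G : Type*} [Group G] (hG : Group.IsNilpotent G) (y : G) (x : ℕ → G)
    (hx : ∀ k, x (k + 1) = ⁅x k, y⁆) : ∃ c, x c = 1 := by
  obtain ⟨c, hc⟩ := nvn_low hG
  have h : ∀ k, x k ∈ (⊤ : Subgroup G).lowerCentralSeries k := by
    intro k
    induction k with
    | zero => exact Subgroup.mem_top _
    | succ k ih =>
      rw [hx k, Subgroup.lowerCentralSeries_succ]
      exact Subgroup.commutator_mem_commutator ih (Subgroup.mem_top _)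
  refine ⟨c, ?_⟩
  have := h c
  rw [hc] at this
  exact Subgroup.mem_bot.1 this

end

theorem t_NVN : S_NVN := by
  intro ι _ _ w L a δ Λ _ Γ hΓ hlam
  rintro ⟨H, hfin, hnil⟩
  have hmem : ∀ (m : ℤ) (lam : ι → ℝ), lam ∈ Λ → nvn_eq L a m lam ∈ Γ := by
    intro m lam h
    have : nvn_eq L a m lam ∈ (Γ : Set (Equiv.Perm ((ι → ℝ) × ℝ))) := by
      rw [hΓ]
      exact nvn_mem L a Λ m lam h
    exact this
  obtain ⟨n, hn, -, hτ⟩ := Subgroup.exists_pow_mem_of_index_ne_zero hfin.index_ne_zero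
    (⟨nvn_eq L a 1 0, hmem 1 0 Λ.zero_mem⟩ : Γ)
  obtain ⟨lam, hl, hne⟩ := hlam n hn
  obtain ⟨N, hN, -, hT⟩ := Subgroup.exists_pow_mem_of_index_ne_zero hfin.index_ne_zero
    (⟨nvn_eq L a 0 lam, hmem 0 lam hl⟩ : Γ)
  set y : H := ⟨_, hτ⟩ with hy
  set x₀ : H := ⟨_, hT⟩ with hx₀
  set x : ℕ → H := fun k => Nat.rec x₀ (fun _ z => ⁅z, y⁆) k with hx
  have hxs : ∀ k, x (k + 1) = ⁅x k, y⁆ := fun k => rfl
  have hyc : ((y : Γ) : Equiv.Perm ((ι → ℝ) × ℝ)) = nvn_eq L a n 0 := by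
    rw [← nvn_tau]
    rfl
  have hxc : ∀ k, ((x k : Γ) : Equiv.Perm ((ι → ℝ) × ℝ)) =
      nvn_eq L a 0 ((fun x : ι → ℝ => x - (L ^ n) x)^[k] ((N : ℝ) • lam)) := by
    intro k
    induction k with
    | zero =>
      rw [Function.iterate_zero, id_eq, ← nvn_T]
      rfl
    | succ k ih =>
      rw [Function.iterate_succ_apply', ← nvn_comm, ← ih, ← hyc]
      rfl
  obtain ⟨c, hc⟩ := nvn_nil hnil y x hxs
  have h1 := hxc c
  rw [hc] at h1
  have h2 := congrArg (fun γ : Equiv.Perm ((ι → ℝ) × ℝ) => (γ 0).1) h1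
  simp only [nvn_apply] at h2
  rw [nvn_iter] at h2
  have h3 : (N : ℝ) • (fun x : ι → ℝ => x - (L ^ n) x)^[c] lam = 0 := by
    simpa using h2.symm
  rcases smul_eq_zero.1 h3 with h | h
  · exact hN.ne' (by exact_mod_cast h)
  · exact hne c h

end H610AF
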