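import Mathlib
import Pool.Agent.H610R2.AF.Defs

namespace H610AF

theorem t_POW : S_POW := by
  intro K r L hL q x j
  have key : ∀ (t : ℕ) (j : Fin (K + 1)), ((L ^ t) x) (Sum.inl (Sum.inl j)) =
      Real.exp (aa K) ^ t * x (Sum.inl (Sum.inl (j - t • (1 : Fin (K + 1))))) := by
    intro t
    induction t with
    | zero => intro j; simp
    | succ t ih =>
      intro j
      rw [pow_succ', LinearEquiv.mul_apply, hL]
      simp only [Lf, Sum.elim_inl]
      rw [ih]
      have : j - 1 - t • (1 : Fin (K + 1)) = j - (t + 1) • (1 : Fin (K + 1)) := by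
        rw [succ_nsmul]; abel
      rw [this]
      ring
  rw [key]
  have h1 : ((K + 1) * q) • (1 : Fin (K + 1)) = 0 := by
    have h0 : (K + 1) • (1 : Fin (K + 1)) = 0 := by
      have := card_nsmul_eq_zero' (x := (1 : Fin (K + 1)))
      rwa [Nat.card_eq_fintype_card, Fintype.card_fin] at this
    rw [mul_nsmul, h0, smul_zero]
  rw [h1, sub_zero, pow_mul]
  have h2 : Real.exp (aa K) ^ (K + 1) = Real.goldenRatio := by
    rw [← Real.exp_nat_mul, aa]
    push_cast
    rw [mul_div_cancel₀ _ (by positivity), Real.exp_log Real.goldenRatio_pos]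
  rw [h2]

end H610AF
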