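import Pool.Agent.H610R2.AF.Defs

open scoped ContDiff

namespace H610AF

theorem pro_bound {ι : Type} [Fintype ι] (f : (ι → ℝ) →ₗ[ℝ] (ι → ℝ)) :
    ∃ C : ℝ, 0 ≤ C ∧ ∀ x, ‖f x‖ ≤ C * ‖x‖ :=
  ⟨‖LinearMap.toContinuousLinearMap f‖, norm_nonneg _, fun x =>
    (LinearMap.toContinuousLinearMap f).le_opNorm x⟩

theorem t_PRO : S_PRO := by
  intro ι _ _ w L a δ Λ hD K hK
  classical
  obtain ⟨R, hR, hKR⟩ := hK.isBounded.exists_pos_norm_le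
  choose C hC0 hC using fun m : ℤ => pro_bound (((L ^ m : (ι → ℝ) ≃ₗ[ℝ] (ι → ℝ)) :
    (ι → ℝ) →ₗ[ℝ] (ι → ℝ)))
  set M : ℤ := ⌈2 * R / a⌉ with hM
  have hsub : {γ : Equiv.Perm ((ι → ℝ) × ℝ) | γ ∈ grpSet L a Λ ∧ (γ '' K ∩ K).Nonempty} ⊆
      ⋃ m ∈ Set.Icc (-M) M, ⋃ lam ∈ {x : ι → ℝ | x ∈ Λ ∧ ‖x‖ ≤ R + C m * R},
        {γ : Equiv.Perm ((ι → ℝ) × ℝ) | ∀ p, γ p = tr L a m lam p} := by
    rintro γ ⟨⟨m, lam, hlam, hγ⟩, ⟨y, ⟨x, hx, rfl⟩, hy⟩⟩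
    have hx1 := hKR x hx
    have hy1 := hKR _ hy
    rw [hγ x] at hy1
    have e1 : (tr L a m lam x).1 = (L ^ m) x.1 + lam := rfl
    have e2 : (tr L a m lam x).2 = x.2 + m * a := rfl
    have h1 : ‖x.1‖ ≤ R := (norm_fst_le x).trans hx1
    have h2 : ‖x.2‖ ≤ R := (norm_snd_le x).trans hx1
    have h3 : ‖(L ^ m) x.1 + lam‖ ≤ R := by
      rw [← e1]; exact (norm_fst_le _).trans hy1
    have h4 : ‖x.2 + m * a‖ ≤ R := by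
      rw [← e2]; exact (norm_snd_le _).trans hy1
    rw [Real.norm_eq_abs, abs_le] at h2 h4
    have ha := hD.a0
    have h5 : (m : ℝ) ≤ 2 * R / a := by
      rw [le_div_iff₀ ha]; linarith
    have h6 : -(m : ℝ) ≤ 2 * R / a := by
      rw [le_div_iff₀ ha]; linarith
    have h7 : m ≤ M := by
      have : (m : ℝ) ≤ (M : ℝ) := h5.trans (Int.le_ceil _)
      exact_mod_cast this
    have h8 : -m ≤ M := by
      have : ((-m : ℤ) : ℝ) ≤ (M : ℝ) := by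
        push_cast
        exact h6.trans (Int.le_ceil _)
      exact_mod_cast this
    refine Set.mem_iUnion₂.2 ⟨m, ⟨by omega, h7⟩, Set.mem_iUnion₂.2 ⟨lam, ⟨hlam, ?_⟩, hγ⟩⟩
    have h9 : ‖(L ^ m) x.1‖ ≤ C m * ‖x.1‖ := hC m x.1
    have h10 : C m * ‖x.1‖ ≤ C m * R := mul_le_mul_of_nonneg_left h1 (hC0 m)
    calc ‖lam‖ = ‖((L ^ m) x.1 + lam) - (L ^ m) x.1‖ := by rw [add_sub_cancel_left]
      _ ≤ ‖(L ^ m) x.1 + lam‖ + ‖(L ^ m) x.1‖ := norm_sub_le _ _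
      _ ≤ R + C m * R := by linarith
  refine Set.Finite.subset ?_ hsub
  refine Set.Finite.biUnion (Set.finite_Icc _ _) fun m _ => ?_
  refine Set.Finite.biUnion (hD.fin _) fun lam _ => ?_
  apply Set.Subsingleton.finite
  intro γ hγ γ' hγ'
  ext1 p
  rw [hγ p, hγ' p]

end H610AF
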