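import Pool.Agent.H610R2.AF.Defs

/-! # AF, task RIE: the numerator of the sectional curvature -/

namespace H610AF

theorem rie_fderiv {ι : Type} [Fintype ι] [DecidableEq ι] (w : ι → ℝ) (y u a b : (ι → ℝ) × ℝ) :
    fderiv ℝ (fun z => chr w z a b) y u =
      (0, - ∑ i, 2 * w i ^ 2 * u.2 * (Real.exp (2 * w i * y.2) * (a.1 i * b.1 i))) := by
  have h : ∀ i ∈ (Finset.univ : Finset ι),
      HasDerivAt (fun t : ℝ => w i * (Real.exp (2 * w i * t) * (a.1 i * b.1 i)))
        (w i * (Real.exp (2 * w i * y.2) * (2 * w i) * (a.1 i * b.1 i))) y.2 := by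
    intro i _
    have h1 : HasDerivAt (fun t : ℝ => 2 * w i * t) (2 * w i) y.2 := by
      simpa using (hasDerivAt_id y.2).const_mul (2 * w i)
    exact ((h1.exp).mul_const (a.1 i * b.1 i)).const_mul (w i)
  have h2 := (HasDerivAt.fun_sum h).fun_neg
  have h3 : HasDerivAt (fun t : ℝ => ((fun i => w i * (a.2 * b.1 i + b.2 * a.1 i),
      - ∑ i, w i * (Real.exp (2 * w i * t) * (a.1 i * b.1 i))) : (ι → ℝ) × ℝ))
      (0, - ∑ i, w i * (Real.exp (2 * w i * y.2) * (2 * w i) * (a.1 i * b.1 i))) y.2 :=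
    HasDerivAt.prodMk (hasDerivAt_const _ _) h2
  have h4 := HasFDerivAt.comp y h3.hasFDerivAt
    (hasFDerivAt_snd (𝕜 := ℝ) (E := (ι → ℝ)) (F := ℝ) (p := y))
  have h5 : (fun z => chr w z a b) = (fun t : ℝ => ((fun i => w i * (a.2 * b.1 i + b.2 * a.1 i),
      - ∑ i, w i * (Real.exp (2 * w i * t) * (a.1 i * b.1 i))) : (ι → ℝ) × ℝ)) ∘ Prod.snd := by
    funext z
    rfl
  rw [h5, h4.fderiv]
  simp only [ContinuousLinearMap.comp_apply, ContinuousLinearMap.toSpanSingleton_apply,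
    ContinuousLinearMap.coe_snd', Prod.smul_mk, smul_zero, smul_eq_mul]
  congr 1
  rw [mul_neg, Finset.mul_sum]
  congr 1
  refine Finset.sum_congr rfl fun i _ => ?_
  ring

theorem rie_lagrange {ι : Type} [Fintype ι] [DecidableEq ι] (w e a b : ι → ℝ) :
    (1 / 2) * ∑ i, ∑ j, w i * w j * (e i * e j * (a i * b j - a j * b i) ^ 2) =
      (∑ i, w i * (e i * (a i * a i))) * (∑ i, w i * (e i * (b i * b i)))
        - (∑ i, w i * (e i * (a i * b i))) * (∑ i, w i * (e i * (a i * b i))) := by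
  have key : ∑ i, ∑ j, w i * w j * (e i * e j * (a i * b j - a j * b i) ^ 2) =
      (∑ i, w i * (e i * (a i * a i))) * (∑ i, w i * (e i * (b i * b i)))
      + (∑ i, w i * (e i * (b i * b i))) * (∑ i, w i * (e i * (a i * a i)))
        - 2 * ((∑ i, w i * (e i * (a i * b i))) * (∑ i, w i * (e i * (a i * b i)))) := by
    rw [Finset.sum_mul_sum, Finset.sum_mul_sum, Finset.sum_mul_sum, Finset.mul_sum,
      ← Finset.sum_add_distrib, ← Finset.sum_sub_distrib]
    refine Finset.sum_congr rfl fun i _ => ?_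
    rw [Finset.mul_sum, ← Finset.sum_add_distrib, ← Finset.sum_sub_distrib]
    refine Finset.sum_congr rfl fun j _ => ?_
    ring
  rw [key]
  ring

theorem t_RIE : S_RIE := by
  intro ι _ _ w y u v
  unfold riem
  rw [rie_fderiv, rie_fderiv, rie_lagrange w (fun i => Real.exp (2 * w i * y.2)) u.1 v.1]
  unfold bil chr
  simp only [LinearMap.mk₂_apply, Prod.fst_add, Prod.fst_sub, Prod.snd_add, Prod.snd_sub,
    Pi.add_apply, Pi.sub_apply, Pi.zero_apply]
  set A := ∑ i, w i * (Real.exp (2 * w i * y.2) * (v.1 i * v.1 i)) with hA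
  set B := ∑ i, w i * (Real.exp (2 * w i * y.2) * (u.1 i * v.1 i)) with hB
  have e1 : (-∑ i, 2 * w i ^ 2 * u.2 * (Real.exp (2 * w i * y.2) * (v.1 i * v.1 i)) -
      -∑ i, 2 * w i ^ 2 * v.2 * (Real.exp (2 * w i * y.2) * (u.1 i * v.1 i)) +
      -∑ i, w i * (Real.exp (2 * w i * y.2) * (u.1 i * (w i * (v.2 * v.1 i + v.2 * v.1 i)))) -
      -∑ i, w i * (Real.exp (2 * w i * y.2) * (v.1 i * (w i * (u.2 * v.1 i + v.2 * u.1 i))))) =
      ∑ i, (- (w i ^ 2 * (Real.exp (2 * w i * y.2) * (v.1 i * (u.2 * v.1 i - v.2 * u.1 i))))) := by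
    rw [← Finset.sum_neg_distrib, ← Finset.sum_neg_distrib, ← Finset.sum_neg_distrib,
      ← Finset.sum_neg_distrib, ← Finset.sum_sub_distrib, ← Finset.sum_add_distrib,
      ← Finset.sum_sub_distrib]
    refine Finset.sum_congr rfl fun i _ => ?_
    ring
  have e3 : -∑ i, w i ^ 2 * (Real.exp (2 * w i * y.2) * (u.2 * v.1 i - v.2 * u.1 i) ^ 2) =
      ∑ i, -(w i ^ 2 * (Real.exp (2 * w i * y.2) * (u.2 * v.1 i - v.2 * u.1 i) ^ 2)) := by
    rw [Finset.sum_neg_distrib]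
  rw [e1, e3, Finset.sum_mul, ← Finset.sum_add_distrib, Finset.sum_mul]
  have e2 : (∑ i, w i * (Real.exp (2 * w i * y.2) * (u.1 i * u.1 i)) * A) - B * B =
      ∑ i, (w i * (Real.exp (2 * w i * y.2) * (u.1 i * u.1 i)) * A
        - w i * (Real.exp (2 * w i * y.2) * (u.1 i * v.1 i)) * B) := by
    rw [Finset.sum_sub_distrib, ← Finset.sum_mul, ← Finset.sum_mul, ← hB]
  rw [e2, ← Finset.sum_sub_distrib]
  refine Finset.sum_congr rfl fun i _ => ?_
  ring

end H610AF
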