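import Pool.Agent.H610R2.AF.Defs

/-! Task SEG (helper265): length of a segment. -/

namespace H610AF

theorem seg_sq {ι : Type} (s : Finset ι) (f : ι → ℝ) (hf : ∀ i ∈ s, 0 ≤ f i) :
    ∑ i ∈ s, f i ^ 2 ≤ (∑ i ∈ s, f i) ^ 2 := by
  rw [sq (∑ i ∈ s, f i), Finset.sum_mul]
  refine Finset.sum_le_sum fun i hi => ?_
  rw [sq]
  exact mul_le_mul_of_nonneg_left (Finset.single_le_sum hf hi) (hf i hi)

theorem seg_bd {ι : Type} [Fintype ι] [DecidableEq ι] (w : ι → ℝ) (a δ : ℝ)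
    (hw : ∀ i, |w i| ≤ 1) (ha : 0 < a) (hδ : 0 ≤ δ) (x h : (ι → ℝ) × ℝ) (hx0 : 0 ≤ x.2)
    (hxa : x.2 ≤ a) (hh2 : |h.2| ≤ a / 2) (hh1 : ‖h.1‖ ≤ δ) (t : ℝ) (ht0 : 0 ≤ t) (ht1 : t ≤ 1) :
    Real.sqrt (bil w (x + t • h) h h) ≤ a / 2 + Real.exp (2 * a) * (Fintype.card ι) * δ := by
  have hz : |x.2 + t * h.2| ≤ 3 * a / 2 := by
    have h1 : |t * h.2| ≤ a / 2 := by
      rw [abs_mul, abs_of_nonneg ht0]
      calc t * |h.2| ≤ 1 * |h.2| := mul_le_mul_of_nonneg_right ht1 (abs_nonneg _)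
        _ ≤ a / 2 := by rw [one_mul]; exact hh2
    calc |x.2 + t * h.2| ≤ |x.2| + |t * h.2| := abs_add_le _ _
      _ ≤ a + a / 2 := by rw [abs_of_nonneg hx0]; linarith
      _ = 3 * a / 2 := by ring
  set z := x.2 + t * h.2 with hzd
  have hval : bil w (x + t • h) h h =
      ∑ i, (Real.exp (w i * z) * |h.1 i|) ^ 2 + |h.2| ^ 2 := by
    show ∑ i, Real.exp (2 * w i * (x + t • h).2) * (h.1 i * h.1 i) + h.2 * h.2 = _
    have e2 : (x + t • h).2 = z := rfl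
    rw [e2, sq_abs, sq]
    congr 1
    refine Finset.sum_congr rfl fun i _ => ?_
    rw [mul_pow, sq_abs, ← Real.exp_nat_mul]
    push_cast
    have e3 : 2 * (w i * z) = 2 * w i * z := by ring
    rw [e3, sq (h.1 i)]
  have hexp : ∀ i, Real.exp (w i * z) ≤ Real.exp (2 * a) := by
    intro i
    refine Real.exp_le_exp.2 ?_
    calc w i * z ≤ |w i * z| := le_abs_self _
      _ = |w i| * |z| := abs_mul _ _
      _ ≤ 1 * (3 * a / 2) := mul_le_mul (hw i) hz (abs_nonneg _) zero_le_one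
      _ ≤ 2 * a := by linarith
  have hhi : ∀ i, |h.1 i| ≤ δ := fun i => (norm_le_pi_norm h.1 i).trans hh1
  have hsum : ∑ i, Real.exp (w i * z) * |h.1 i| ≤ Real.exp (2 * a) * (Fintype.card ι) * δ := by
    calc ∑ i, Real.exp (w i * z) * |h.1 i| ≤ ∑ _i : ι, Real.exp (2 * a) * δ :=
          Finset.sum_le_sum fun i _ => mul_le_mul (hexp i) (hhi i) (abs_nonneg _)
            (Real.exp_pos _).le
      _ = Real.exp (2 * a) * (Fintype.card ι) * δ := by
          rw [Finset.sum_const, Finset.card_univ, nsmul_eq_mul]; ring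
  have hS0 : 0 ≤ ∑ i, Real.exp (w i * z) * |h.1 i| :=
    Finset.sum_nonneg fun i _ => mul_nonneg (Real.exp_pos _).le (abs_nonneg _)
  have h1 : Real.sqrt (bil w (x + t • h) h h) ≤ ∑ i, Real.exp (w i * z) * |h.1 i| + |h.2| := by
    rw [Real.sqrt_le_iff]
    refine ⟨add_nonneg hS0 (abs_nonneg _), ?_⟩
    rw [hval]
    have h2 := seg_sq Finset.univ (fun i => Real.exp (w i * z) * |h.1 i|)
      (fun i _ => mul_nonneg (Real.exp_pos _).le (abs_nonneg _))
    have h3 : 0 ≤ (∑ i, Real.exp (w i * z) * |h.1 i|) * |h.2| := mul_nonneg hS0 (abs_nonneg _)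
    nlinarith
  linarith

theorem t_SEG : S_SEG := by
  intro ι _ _ w a δ hw ha hδ x h hx0 hxa hh2 hh1
  have h1 := intervalIntegral.norm_integral_le_of_norm_le_const (a := (0 : ℝ)) (b := 1)
    (f := fun t : ℝ => Real.sqrt (bil w (x + t • h) h h))
    (C := a / 2 + Real.exp (2 * a) * (Fintype.card ι) * δ) (by
      intro t ht
      rw [Set.uIoc_of_le zero_le_one] at ht
      rw [Real.norm_of_nonneg (Real.sqrt_nonneg _)]
      exact seg_bd w a δ hw ha hδ x h hx0 hxa hh2 hh1 t ht.1.le ht.2)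
  rw [sub_zero, abs_one, mul_one] at h1
  exact (le_abs_self _).trans h1

end H610AF
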